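import Pool.Agent.Lib.MP_6ae9d2_nt.Basic

set_option autoImplicit false

namespace Pool.Agent.Lib.MP_6ae9d2_nt.Red

/-- The quotient by the gcd is odd if the full power of two is in the gcd. -/
lemma odd_quot {x n q : ℕ} (hx : x ≠ 0) (h : 2 ^ padicValNat 2 x ∣ n) (hq : x = Nat.gcd x n * q) :
    ¬ 2 ∣ q := by
  intro hcon
  have h1 : 2 ^ padicValNat 2 x ∣ Nat.gcd x n := Nat.dvd_gcd pow_padicValNat_dvd h
  have h2 : 2 ^ (padicValNat 2 x + 1) ∣ x := by
    rw [pow_succ]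
    conv_rhs => rw [hq]
    exact Nat.mul_dvd_mul h1 hcon
  have hf : Fact (Nat.Prime 2) := ⟨Nat.prime_two⟩
  exact pow_succ_padicValNat_not_dvd hx h2

/-- A common prime of `b - 1` and `b + 1` is two. -/
lemma two_of {b p : ℕ} (hb : 2 ≤ b) (hp : p.Prime) (h1 : p ∣ b - 1) (h2 : p ∣ b + 1) : p = 2 := by
  have h3 := Nat.dvd_sub h2 h1
  rw [show b + 1 - (b - 1) = 2 by omega] at h3
  exact (Nat.prime_dvd_prime_iff_eq hp Nat.prime_two).mp h3

lemma sq_eq {b : ℕ} (hb : 2 ≤ b) : b ^ 2 - 1 = (b - 1) * (b + 1) := by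
  have : b ^ 2 = (b - 1) * (b + 1) + 1 := by
    obtain ⟨c, rfl⟩ : ∃ c, b = c + 2 := ⟨b - 2, by omega⟩
    simp only [show c + 2 - 1 = c + 1 by omega]; ring
  omega

/-- In the non exceptional case the product of the two gcds divides `n`. -/
lemma prod_dvd {b n : ℕ} (hb : 2 ≤ b) (hn : 1 ≤ n)
    (hE : ¬ (¬ 2 ∣ b ∧ 2 ∣ n ∧ padicValNat 2 n < padicValNat 2 (b ^ 2 - 1))) :
    Nat.gcd (b - 1) n * Nat.gcd (b + 1) n ∣ n := by
  have hf : Fact (Nat.Prime 2) := ⟨Nat.prime_two⟩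
  have hd0 : 0 < Nat.gcd (b - 1) n := Nat.gcd_pos_of_pos_right _ hn
  have hg0 : 0 < Nat.gcd (b + 1) n := Nat.gcd_pos_of_pos_right _ hn
  have hdn : Nat.gcd (b - 1) n ∣ n := Nat.gcd_dvd_right _ _
  have hgn : Nat.gcd (b + 1) n ∣ n := Nat.gcd_dvd_right _ _
  have hdf := (Nat.factorization_le_iff_dvd (by omega) (by omega : n ≠ 0)).mpr hdn
  have hgf := (Nat.factorization_le_iff_dvd (by omega) (by omega : n ≠ 0)).mpr hgn
  rw [← Nat.factorization_le_iff_dvd (Nat.mul_ne_zero (by omega) (by omega)) (by omega : n ≠ 0)]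
  intro p
  rw [Nat.factorization_mul (by omega) (by omega)]
  simp only [Finsupp.coe_add, Pi.add_apply]
  have h1 := hdf p
  have h2 := hgf p
  by_cases hpp : p.Prime
  swap
  · simp [Nat.factorization_eq_zero_of_not_prime _ hpp]
  by_cases hpd : p ∣ Nat.gcd (b - 1) n
  swap
  · rw [Nat.factorization_eq_zero_of_not_dvd hpd]; omega
  by_cases hpg : p ∣ Nat.gcd (b + 1) n
  swap
  · rw [Nat.factorization_eq_zero_of_not_dvd hpg]; omega
  have hp2 : p = 2 := two_of hb hpp (hpd.trans (Nat.gcd_dvd_left _ _))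
    (hpg.trans (Nat.gcd_dvd_left _ _))
  subst hp2
  have hb2 : 2 ∣ b - 1 := hpd.trans (Nat.gcd_dvd_left _ _)
  have hn2 : 2 ∣ n := hpd.trans hdn
  have hv : padicValNat 2 (b ^ 2 - 1) ≤ padicValNat 2 n := by
    by_contra hcon
    exact hE ⟨by omega, hn2, by omega⟩
  rw [sq_eq hb, padicValNat.mul (by omega) (by omega)] at hv
  have h3 := (Nat.factorization_le_iff_dvd (by omega) (by omega : b - 1 ≠ 0)).mpr
    (Nat.gcd_dvd_left (b - 1) n) 2
  have h4 := (Nat.factorization_le_iff_dvd (by omega) (by omega : b + 1 ≠ 0)).mpr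
    (Nat.gcd_dvd_left (b + 1) n) 2
  rw [Nat.factorization_def _ Nat.prime_two, Nat.factorization_def _ Nat.prime_two] at h3 h4
  rw [Nat.factorization_def _ Nat.prime_two, Nat.factorization_def _ Nat.prime_two,
    Nat.factorization_def _ Nat.prime_two]
  omega

/-- In the non exceptional case the two quotients have the same parity; they are odd if `b` is even
or `n` is even. -/
lemma quot_odd {b n β γ : ℕ} (hb : 2 ≤ b) (hn : 1 ≤ n)
    (hE : ¬ (¬ 2 ∣ b ∧ 2 ∣ n ∧ padicValNat 2 n < padicValNat 2 (b ^ 2 - 1)))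
    (hβ : b - 1 = Nat.gcd (b - 1) n * β) (hγ : b + 1 = Nat.gcd (b + 1) n * γ)
    (h : 2 ∣ b ∨ 2 ∣ n) : ¬ 2 ∣ β ∧ ¬ 2 ∣ γ := by
  have hf : Fact (Nat.Prime 2) := ⟨Nat.prime_two⟩
  by_cases h2b : 2 ∣ b
  · constructor
    · intro hc
      have : 2 ∣ b - 1 := by rw [hβ]; exact Dvd.dvd.mul_left hc _
      omega
    · intro hc
      have : 2 ∣ b + 1 := by rw [hγ]; exact Dvd.dvd.mul_left hc _
      omega
  · have hn2 : 2 ∣ n := by tauto
    have hv : padicValNat 2 (b ^ 2 - 1) ≤ padicValNat 2 n := by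
      by_contra hcon
      exact hE ⟨h2b, hn2, by omega⟩
    rw [sq_eq hb, padicValNat.mul (by omega) (by omega)] at hv
    constructor
    · exact odd_quot (by omega) ((pow_dvd_pow 2 (by omega)).trans pow_padicValNat_dvd) hβ
    · exact odd_quot (by omega) ((pow_dvd_pow 2 (by omega)).trans pow_padicValNat_dvd) hγ

/-- The arithmetic of the closed formula. -/
theorem arith {b n u : ℕ} (hb : 2 ≤ b) (hn : 1 ≤ n) (hu : 1 ≤ u) :
    (∃ y : ℕ, y ≤ u ∧ Nat.gcd (b ^ 2 - 1) n ∣ u + (b - 1) * y) ↔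
      Nat.gcd (b - 1) n ∣ u ∧ (2 * Nat.gcd (b - 1) n ∣ u ∨ Nat.gcd (b + 1) n ≤ u ∨
        (¬ 2 ∣ b ∧ 2 ∣ n ∧ padicValNat 2 n < padicValNat 2 (b ^ 2 - 1))) := by
  have hf : Fact (Nat.Prime 2) := ⟨Nat.prime_two⟩
  have hd0 : 0 < Nat.gcd (b - 1) n := Nat.gcd_pos_of_pos_right _ hn
  have hg0 : 0 < Nat.gcd (b + 1) n := Nat.gcd_pos_of_pos_right _ hn
  have hdn : Nat.gcd (b - 1) n ∣ n := Nat.gcd_dvd_right _ _
  have hgn : Nat.gcd (b + 1) n ∣ n := Nat.gcd_dvd_right _ _
  have hdb : Nat.gcd (b - 1) n ∣ b - 1 := Nat.gcd_dvd_left _ _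
  have hgb : Nat.gcd (b + 1) n ∣ b + 1 := Nat.gcd_dvd_left _ _
  have hGn : Nat.gcd (b ^ 2 - 1) n ∣ n := Nat.gcd_dvd_right _ _
  have hGb : Nat.gcd (b ^ 2 - 1) n ∣ b ^ 2 - 1 := Nat.gcd_dvd_left _ _
  have hGdg : Nat.gcd (b ^ 2 - 1) n ∣ Nat.gcd (b - 1) n * Nat.gcd (b + 1) n := by
    rw [sq_eq hb, Nat.gcd_comm, Nat.gcd_comm (b - 1) n, Nat.gcd_comm (b + 1) n]
    exact Nat.gcd_mul_right_dvd_mul_gcd n (b - 1) (b + 1)
  have hdG : Nat.gcd (b - 1) n ∣ Nat.gcd (b ^ 2 - 1) n :=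
    Nat.dvd_gcd (hdb.trans (by rw [sq_eq hb]; exact Dvd.intro _ rfl)) hdn
  have hgG : Nat.gcd (b + 1) n ∣ Nat.gcd (b ^ 2 - 1) n :=
    Nat.dvd_gcd (hgb.trans (by rw [sq_eq hb]; exact Dvd.intro_left _ rfl)) hgn
  have hdgE : ¬ (¬ 2 ∣ b ∧ 2 ∣ n ∧ padicValNat 2 n < padicValNat 2 (b ^ 2 - 1)) →
      Nat.gcd (b - 1) n * Nat.gcd (b + 1) n ∣ Nat.gcd (b ^ 2 - 1) n := by
    intro hE
    refine Nat.dvd_gcd ?_ (prod_dvd hb hn hE)
    rw [sq_eq hb]
    exact Nat.mul_dvd_mul hdb hgb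
  obtain ⟨β, hβ⟩ := hdb
  obtain ⟨γ, hγ⟩ := hgb
  have hqo := fun hE => quot_odd (β := β) (γ := γ) hb hn hE hβ hγ
  -- names
  generalize hdd : Nat.gcd (b - 1) n = d at *
  generalize hgg : Nat.gcd (b + 1) n = g at *
  generalize hGG : Nat.gcd (b ^ 2 - 1) n = G at *
  have hβz : (b : ℤ) - 1 = d * β := by
    have : ((b - 1 : ℕ) : ℤ) = d * β := by rw [hβ]; push_cast; ring
    rw [Nat.cast_sub (by omega)] at this
    simpa using this
  have hγz : (b : ℤ) + 1 = g * γ := by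
    have : ((b + 1 : ℕ) : ℤ) = g * γ := by rw [hγ]; push_cast; ring
    simpa using this
  have hb1 : ((b - 1 : ℕ) : ℤ) = (b : ℤ) - 1 := by rw [Nat.cast_sub (by omega)]; simp
  constructor
  · rintro ⟨y, hy, hdvd⟩
    have hdu : d ∣ u := by
      have h2 : d ∣ (b - 1) * y := Dvd.dvd.mul_right ⟨β, hβ⟩ y
      exact (Nat.dvd_add_left h2).mp (hdG.trans hdvd)
    refine ⟨hdu, ?_⟩
    by_cases hE : ¬ 2 ∣ b ∧ 2 ∣ n ∧ padicValNat 2 n < padicValNat 2 (b ^ 2 - 1)
    · exact Or.inr (Or.inr hE)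
    by_cases huy : u = 2 * y
    · left
      have h1 : u + (b - 1) * y = g * (γ * y) := by
        zify
        rw [hb1, huy]
        push_cast
        linear_combination (y : ℤ) * hγz
      have h2 : d * g ∣ g * (γ * y) := by rw [← h1]; exact (hdgE hE).trans hdvd
      have h3 : d ∣ γ * y := by
        rw [mul_comm d g] at h2
        exact Nat.dvd_of_mul_dvd_mul_left hg0 h2
      have h4 : Nat.Coprime d γ := by
        rw [Nat.coprime_iff_gcd_eq_one]
        by_contra hne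
        obtain ⟨p, hpp, hpd⟩ := Nat.exists_prime_and_dvd hne
        have h5 : p ∣ d := hpd.trans (Nat.gcd_dvd_left _ _)
        have h6 : p ∣ γ := hpd.trans (Nat.gcd_dvd_right _ _)
        have h7 : p = 2 := two_of hb hpp (by rw [hβ]; exact Dvd.dvd.mul_right h5 _)
          (by rw [hγ]; exact Dvd.dvd.mul_left h6 _)
        rw [h7] at h5 h6
        exact (hqo hE (Or.inr (h5.trans hdn))).2 h6
      have h5 : d ∣ y := h4.dvd_of_dvd_mul_left h3
      rw [huy]
      exact Nat.mul_dvd_mul_left 2 h5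
    · right; left
      have h1 : (g : ℤ) ∣ (u : ℤ) - 2 * y := by
        have h2 : (g : ℤ) ∣ ((u + (b - 1) * y : ℕ) : ℤ) := by exact_mod_cast hgG.trans hdvd
        have h3 : ((u + (b - 1) * y : ℕ) : ℤ) = ((u : ℤ) - 2 * y) + g * (γ * y) := by
          push_cast
          rw [hb1]
          linear_combination (y : ℤ) * hγz
        rw [h3] at h2
        exact (dvd_add_left (Dvd.intro _ rfl)).mp h2
      have h2 : (u : ℤ) - 2 * y ≠ 0 := by
        intro h; apply huy; omega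
      have h3 := Int.le_of_dvd (abs_pos.mpr h2) ((dvd_abs _ _).mpr h1)
      have h4 : |(u : ℤ) - 2 * y| ≤ u := by
        rw [abs_le]; constructor <;> omega
      omega
  · rintro ⟨hdu, hcond⟩
    by_cases h2d : 2 * d ∣ u
    · obtain ⟨k, hk⟩ := h2d
      refine ⟨d * k, by rw [hk]; nlinarith [Nat.zero_le (d * k)], ?_⟩
      have h1 : u + (b - 1) * (d * k) = (d * g) * (γ * k) := by
        zify
        rw [hb1, hk]
        push_cast
        linear_combination (d : ℤ) * k * hγz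
      rw [h1]
      exact Dvd.dvd.mul_right hGdg _
    obtain ⟨u', hu'⟩ := hdu
    have hu'odd : ¬ 2 ∣ u' := by
      rintro ⟨w, hw⟩
      apply h2d
      rw [hu', hw]
      exact ⟨w, by ring⟩
    by_cases hE : ¬ 2 ∣ b ∧ 2 ∣ n ∧ padicValNat 2 n < padicValNat 2 (b ^ 2 - 1)
    · obtain ⟨hb2, hn2, hv⟩ := hE
      have h2d' : 2 ∣ d := by rw [← hdd]; exact Nat.dvd_gcd (by omega) hn2
      obtain ⟨q, hq⟩ := hGb
      have hbne : b ^ 2 - 1 ≠ 0 := by
        rw [sq_eq hb]; exact Nat.mul_ne_zero (by omega) (by omega)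
      have h2q : 2 ∣ q := by
        by_contra hcon
        have h1 : 2 ^ padicValNat 2 (b ^ 2 - 1) ∣ G * q := by
          rw [← hq]; exact pow_padicValNat_dvd
        have h2 : Nat.Coprime (2 ^ padicValNat 2 (b ^ 2 - 1)) q := by
          apply Nat.Coprime.pow_left
          rw [Nat.coprime_two_left, ← Nat.not_even_iff_odd, even_iff_two_dvd]
          exact hcon
        have h3 := (h2.dvd_of_dvd_mul_right h1).trans hGn
        have h4 := (padicValNat_dvd_iff_le (by omega : n ≠ 0)).mp h3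
        omega
      have h2G : 2 * G ∣ (b + 1) * d := by
        have h1 : 2 * G ∣ (b + 1) * (b - 1) := by
          rw [mul_comm (b + 1), ← sq_eq hb, hq, mul_comm 2 G]
          exact Nat.mul_dvd_mul_left G h2q
        have h2 : 2 * G ∣ (b + 1) * n := Nat.mul_dvd_mul (by omega) hGn
        have h3 := Nat.dvd_gcd h1 h2
        rwa [Nat.gcd_mul_left, hdd] at h3
      obtain ⟨v, hv2⟩ : 2 ∣ u := by rw [hu']; exact Dvd.dvd.mul_right h2d' _
      refine ⟨v, by omega, ?_⟩
      have h1 : 2 * (u + (b - 1) * v) = (b + 1) * d * u' := by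
        zify
        rw [hb1]
        have e1 : (u : ℤ) = 2 * v := by exact_mod_cast hv2
        have e2 : (u : ℤ) = d * u' := by exact_mod_cast hu'
        push_cast
        linear_combination (2 : ℤ) * e1 - ((b : ℤ) + 1) * e1 + ((b : ℤ) + 1) * e2
      have h2 : 2 * G ∣ 2 * (u + (b - 1) * v) := by
        rw [h1]; exact Dvd.dvd.mul_right h2G _
      exact Nat.dvd_of_mul_dvd_mul_left (by norm_num) h2
    · have hgu : g ≤ u := by
        rcases hcond with h | h | h
        · exact (h2d h).elim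
        · exact h
        · exact (hE h).elim
      -- parity
      have hpar : (2 : ℤ) ∣ (γ : ℤ) * u' - β := by
        by_cases h : 2 ∣ b ∨ 2 ∣ n
        · obtain ⟨h1, h2⟩ := hqo hE h
          have h3 : ¬ 2 ∣ γ * u' := by
            intro h4
            rcases (Nat.Prime.dvd_mul Nat.prime_two).mp h4 with h5 | h5
            · exact h2 h5
            · exact hu'odd h5
          have h4 : ((γ * u' : ℕ) : ℤ) = (γ : ℤ) * u' := by push_cast; ring
          rw [← h4]; omega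
        · push Not at h
          obtain ⟨h1, h2⟩ := h
          have h3 : 2 ∣ β := by
            have h4 : 2 ∣ d * β := by rw [← hβ]; omega
            rcases (Nat.Prime.dvd_mul Nat.prime_two).mp h4 with h5 | h5
            · exact (h2 (h5.trans hdn)).elim
            · exact h5
          have h3' : 2 ∣ γ := by
            have h4 : 2 ∣ g * γ := by rw [← hγ]; omega
            rcases (Nat.Prime.dvd_mul Nat.prime_two).mp h4 with h5 | h5
            · exact (h2 (h5.trans hgn)).elim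
            · exact h5
          have h5 : 2 ∣ γ * u' := Dvd.dvd.mul_right h3' _
          have h4 : ((γ * u' : ℕ) : ℤ) = (γ : ℤ) * u' := by push_cast; ring
          rw [← h4]; omega
      have hpu : 2 ∣ u - g := by
        have h1 : 2 ∣ u ↔ 2 ∣ d := by
          rw [hu', Nat.Prime.dvd_mul Nat.prime_two]
          constructor
          · rintro (h | h)
            · exact h
            · exact (hu'odd h).elim
          · exact Or.inl
        have h2 : 2 ∣ d ↔ 2 ∣ g := by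
          rw [← hdd, ← hgg, Nat.dvd_gcd_iff, Nat.dvd_gcd_iff]
          constructor <;> rintro ⟨h3, h4⟩ <;> exact ⟨by omega, h4⟩
        have h3 := h1.trans h2
        omega
      obtain ⟨y, hy⟩ := hpu
      refine ⟨y, by omega, ?_⟩
      obtain ⟨w, hw⟩ := hpar
      have e1 : (u : ℤ) = g + 2 * y := by omega
      have e2 : (u : ℤ) = d * u' := by exact_mod_cast hu'
      have h1 : ((u + (b - 1) * y : ℕ) : ℤ) = ((d * g : ℕ) : ℤ) * w := by
        have h2 : (2 : ℤ) * ((u + (b - 1) * y : ℕ) : ℤ) = 2 * (((d * g : ℕ) : ℤ) * w) := by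
          push_cast
          rw [hb1]
          linear_combination (-((b : ℤ) - 1)) * e1 + ((b : ℤ) + 1) * e2 + (d : ℤ) * u' * hγz
            - (g : ℤ) * hβz + (d : ℤ) * g * hw
        linarith
      have h2 : ((G : ℕ) : ℤ) ∣ ((u + (b - 1) * y : ℕ) : ℤ) := by
        rw [h1]
        exact Dvd.dvd.mul_right (by exact_mod_cast hGdg) _
      exact_mod_cast h2

end Pool.Agent.Lib.MP_6ae9d2_nt.Red
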