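import Pool.Agent.Lib.MP_6ae9d2_nt.Defs

set_option autoImplicit false

namespace Pool.Agent.Lib.MP_6ae9d2_nt

lemma ds_rec {b : ℕ} (hb : 2 ≤ b) (q c : ℕ) (hc : c < b) :
    (Nat.digits b (b * q + c)).sum = (Nat.digits b q).sum + c := by
  rcases Nat.eq_zero_or_pos (b * q + c) with h | h
  · have hc0 : c = 0 := by omega
    have hq : b * q = 0 := by omega
    have hq0 : q = 0 := by
      rcases Nat.mul_eq_zero.mp hq with h1 | h1
      · omega
      · exact h1
    subst hc0; subst hq0; simp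
  · rw [Nat.digits_def' (by omega) h]
    have h1 : (b * q + c) % b = c := by
      rw [Nat.mul_add_mod, Nat.mod_eq_of_lt hc]
    have h2 : (b * q + c) / b = q := by
      rw [Nat.mul_add_div (by omega), Nat.div_eq_of_lt hc, add_zero]
    rw [h1, h2, List.sum_cons, add_comm]

lemma ds_modEq {b : ℕ} (hb : 2 ≤ b) (N : ℕ) :
    (Nat.digits b N).sum ≡ N [MOD (b - 1)] := by
  rcases Nat.lt_or_ge 2 b with h | h
  · exact (Nat.modEq_digits_sum (b - 1) b (by
      rw [Nat.mod_eq_sub_mod (by omega : b ≥ b - 1)]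
      have : b - (b - 1) = 1 := by omega
      rw [this]
      exact Nat.mod_eq_of_lt (by omega)) N).symm
  · have : b - 1 = 1 := by omega
    rw [this]; exact Nat.modEq_one

lemma ds_one {b : ℕ} (hb : 2 ≤ b) : (Nat.digits b 1).sum = 1 := by
  have := ds_rec hb 0 1 (by omega)
  simpa using this

lemma ds_add_le {b : ℕ} (hb : 2 ≤ b) : ∀ s p q : ℕ, p + q = s →
    (Nat.digits b (p + q)).sum ≤ (Nat.digits b p).sum + (Nat.digits b q).sum := by
  intro s
  induction s using Nat.strong_induction_on with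
  | _ s ih =>
    intro p q hpq
    rcases Nat.eq_zero_or_pos p with hp | hp
    · subst hp; simp
    rcases Nat.eq_zero_or_pos q with hq | hq
    · subst hq; simp
    have hp' := Nat.div_add_mod p b
    have hq' := Nat.div_add_mod q b
    have hp0 : p % b < b := Nat.mod_lt _ (by omega)
    have hq0 : q % b < b := Nat.mod_lt _ (by omega)
    set p' := p / b
    set q' := q / b
    set p0 := p % b
    set q0 := q % b
    have hlt1 : p' < p := by
      have : b * p' ≥ 2 * p' := Nat.mul_le_mul_right _ hb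
      omega
    have hlt2 : q' < q := by
      have : b * q' ≥ 2 * q' := Nat.mul_le_mul_right _ hb
      omega
    rw [← hp', ← hq', ds_rec hb p' p0 hp0, ds_rec hb q' q0 hq0]
    by_cases hc : p0 + q0 < b
    · have e : b * p' + p0 + (b * q' + q0) = b * (p' + q') + (p0 + q0) := by ring
      rw [e, ds_rec hb _ _ hc]
      have := ih (p' + q') (by omega) p' q' rfl
      omega
    · have e : b * p' + p0 + (b * q' + q0) = b * (p' + (q' + 1)) + (p0 + q0 - b) := by
        have : b * (p' + (q' + 1)) = b * p' + b * q' + b := by ring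
        omega
      have hc2 : p0 + q0 - b < b := by omega
      rw [e, ds_rec hb _ _ hc2]
      have h2p : 2 * p' ≤ b * p' := Nat.mul_le_mul_right _ hb
      have h2q : 2 * q' ≤ b * q' := Nat.mul_le_mul_right _ hb
      have h1 := ih (p' + (q' + 1)) (by omega) p' (q' + 1) rfl
      have h2 := ih (q' + 1) (by omega) q' 1 rfl
      rw [ds_one hb] at h2
      omega

lemma ds_split {b : ℕ} (hb : 2 ≤ b) (q : ℕ) : ∀ k r : ℕ, r < b ^ k →
    (Nat.digits b (q * b ^ k + r)).sum = (Nat.digits b q).sum + (Nat.digits b r).sum := by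
  intro k
  induction k with
  | zero =>
    intro r hr
    have : r = 0 := by simpa using hr
    subst this; simp
  | succ k ih =>
    intro r hr
    have hr' := Nat.div_add_mod r b
    have hr0 : r % b < b := Nat.mod_lt _ (by omega)
    have hlt : r / b < b ^ k := by
      apply Nat.div_lt_of_lt_mul
      rw [pow_succ] at hr
      linarith [mul_comm (b ^ k) b]
    have e : q * b ^ (k + 1) + r = b * (q * b ^ k + r / b) + r % b := by
      rw [pow_succ]
      calc q * (b ^ k * b) + r = q * (b ^ k * b) + (b * (r / b) + r % b) := by rw [hr']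
        _ = _ := by ring
    rw [e, ds_rec hb _ _ hr0, ih _ hlt]
    have e2 : (Nat.digits b r).sum = (Nat.digits b (r / b)).sum + r % b := by
      conv_lhs => rw [← hr']
      rw [ds_rec hb _ _ hr0]
    rw [e2]; ring

/-- Every positive multiple of `m` has the digit sum of one of the small multiples,
up to a multiple of `b - 1`. -/
lemma reduce {b m k : ℕ} (hb : 2 ≤ b) (hk : 1 ≤ k) (hm : 0 < m) (hmk : m ∣ b ^ k - 1) :
    ∀ N : ℕ, 0 < N → m ∣ N → ∃ j t : ℕ, 1 ≤ j ∧ j ≤ (b ^ k - 1) / m ∧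
      (Nat.digits b N).sum = (Nat.digits b (j * m)).sum + (b - 1) * t := by
  intro N
  induction N using Nat.strong_induction_on with
  | _ N ih =>
    intro hN hmN
    have hbk : 2 ≤ b ^ k := le_trans hb (Nat.le_self_pow (by omega) b)
    rcases Nat.lt_or_ge N (b ^ k) with h | h
    · refine ⟨N / m, 0, ?_, ?_, ?_⟩
      · exact Nat.div_pos (Nat.le_of_dvd hN hmN) hm
      · exact Nat.div_le_div_right (by omega)
      · rw [Nat.div_mul_cancel hmN]; simp
    · have hdm := Nat.div_add_mod N (b ^ k)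
      have hr : N % b ^ k < b ^ k := Nat.mod_lt _ (by omega)
      have hq : 1 ≤ N / b ^ k := Nat.div_pos h (by omega)
      set q := N / b ^ k
      set r := N % b ^ k
      have hmul : b ^ k * q = (b ^ k - 1) * q + q := by
        have : b ^ k = (b ^ k - 1) + 1 := by omega
        conv_lhs => rw [this]
        ring
      have hpos : 0 < (b ^ k - 1) * q := Nat.mul_pos (by omega) (by omega)
      have hN1 : N = (b ^ k - 1) * q + (q + r) := by
        rw [← hdm, hmul]; ring
      have hN' : q + r < N := by omega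
      have hdvd : m ∣ q + r := by
        have h2 : m ∣ (b ^ k - 1) * q := Dvd.dvd.mul_right hmk q
        rw [hN1] at hmN
        exact (Nat.dvd_add_right h2).mp hmN
      obtain ⟨j, t, hj1, hj2, hjt⟩ := ih (q + r) hN' (lt_of_lt_of_le hq (Nat.le_add_right q r)) hdvd
      have hsplit : (Nat.digits b N).sum = (Nat.digits b q).sum + (Nat.digits b r).sum := by
        rw [← hdm, mul_comm]; exact ds_split hb q k r hr
      have hle := ds_add_le hb (q + r) q r rfl
      have hmod : (Nat.digits b (q + r)).sum ≡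
          (Nat.digits b q).sum + (Nat.digits b r).sum [MOD (b - 1)] :=
        (ds_modEq hb (q + r)).trans ((ds_modEq hb q).add (ds_modEq hb r)).symm
      obtain ⟨c, hc⟩ := (Nat.modEq_iff_dvd' hle).mp hmod
      refine ⟨j, t + c, hj1, hj2, ?_⟩
      rw [hsplit]
      have : (Nat.digits b q).sum + (Nat.digits b r).sum =
          (Nat.digits b (q + r)).sum + (b - 1) * c := by omega
      rw [this, hjt]; ring

lemma ds_mul_pow {b : ℕ} (hb : 2 ≤ b) (N e : ℕ) :
    (Nat.digits b (N * b ^ e)).sum = (Nat.digits b N).sum := by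
  have := ds_split hb N e 0 (by positivity)
  simpa using this

/-- One step up: the digit sum can be increased by exactly `b - 1`. -/
lemma step {b m k : ℕ} (hb : 2 ≤ b) (hk : 1 ≤ k) (hmk : m ∣ b ^ k - 1)
    (N : ℕ) (hN : 0 < N) (hmN : m ∣ N) :
    ∃ N' : ℕ, 0 < N' ∧ m ∣ N' ∧ (Nat.digits b N').sum = (Nat.digits b N).sum + (b - 1) := by
  -- remove the trailing zeros of `N`
  have hcop : Nat.Coprime m b := by
    have h1 : Nat.Coprime (b ^ k - 1) (b ^ k) := by
      have h2 : 1 ≤ b ^ k := Nat.one_le_pow _ _ (by omega)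
      have h3 : b ^ k = (b ^ k - 1) + 1 := by omega
      conv_rhs => rw [h3]
      exact (Nat.coprime_self_add_right).mpr (Nat.coprime_one_right _)
    have h4 : Nat.Coprime (b ^ k - 1) b := Nat.Coprime.coprime_dvd_right (dvd_pow_self b (by omega)) h1
    exact Nat.Coprime.coprime_dvd_left hmk h4
  obtain ⟨e, N0, hN0, hNe⟩ := Nat.exists_eq_pow_mul_and_not_dvd (n := N) (by omega) b (by omega)
  have hN0pos : 0 < N0 := by
    rcases Nat.eq_zero_or_pos N0 with h | h
    · exfalso; apply hN0; rw [h]; exact dvd_zero b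
    · exact h
  have hmN0 : m ∣ N0 := by
    rw [hNe] at hmN
    exact (Nat.Coprime.dvd_of_dvd_mul_left (Nat.Coprime.pow_right e hcop) hmN)
  have hs0 : (Nat.digits b N).sum = (Nat.digits b N0).sum := by
    rw [hNe, mul_comm, ds_mul_pow hb]
  -- the new multiple
  obtain ⟨B, hB⟩ : ∃ B : ℕ, b * N0 < b ^ (k * B) := by
    refine ⟨b * N0, ?_⟩
    calc b * N0 < b ^ (b * N0) := Nat.lt_pow_self (by omega)
      _ ≤ b ^ (k * (b * N0)) := Nat.pow_le_pow_right (by omega) (Nat.le_mul_of_pos_left _ hk)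
  have hdvdB : m ∣ b ^ (k * B) - 1 := by
    refine hmk.trans ?_
    rw [pow_mul]
    simpa using Nat.sub_dvd_pow_sub_pow (b ^ k) 1 B
  have hbN : 2 * N0 ≤ b * N0 := Nat.mul_le_mul_right _ hb
  refine ⟨1 * b ^ (k * B) + (b * N0 - 1), ?_, ?_, ?_⟩
  · omega
  · have h1 : 1 * b ^ (k * B) + (b * N0 - 1) = (b ^ (k * B) - 1) + b * N0 := by omega
    rw [h1]
    exact Nat.dvd_add hdvdB (Dvd.dvd.mul_left hmN0 b)
  · rw [ds_split hb 1 (k * B) (b * N0 - 1) (by omega), ds_one hb]
    have e1 : b * N0 - 1 = b * (N0 - 1) + (b - 1) := by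
      have : b * N0 = b * (N0 - 1) + b := by
        conv_lhs => rw [show N0 = (N0 - 1) + 1 by omega]
        ring
      omega
    rw [e1, ds_rec hb _ _ (by omega), hs0]
    have hmod : N0 % b ≠ 0 := fun h => hN0 (Nat.dvd_of_mod_eq_zero h)
    have hdm := Nat.div_add_mod N0 b
    have hlt : N0 % b < b := Nat.mod_lt _ (by omega)
    have e2 : (Nat.digits b N0).sum = (Nat.digits b (N0 / b)).sum + N0 % b := by
      conv_lhs => rw [← hdm]
      rw [ds_rec hb _ _ hlt]
    have e3 : (Nat.digits b (N0 - 1)).sum = (Nat.digits b (N0 / b)).sum + (N0 % b - 1) := by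
      have : N0 - 1 = b * (N0 / b) + (N0 % b - 1) := by omega
      conv_lhs => rw [this]
      rw [ds_rec hb _ _ (by omega)]
    rw [e2, e3]; omega

lemma steps {b m k : ℕ} (hb : 2 ≤ b) (hk : 1 ≤ k) (hmk : m ∣ b ^ k - 1)
    (N : ℕ) (hN : 0 < N) (hmN : m ∣ N) (t : ℕ) :
    ∃ N' : ℕ, 0 < N' ∧ m ∣ N' ∧
      (Nat.digits b N').sum = (Nat.digits b N).sum + (b - 1) * t := by
  induction t with
  | zero => exact ⟨N, hN, hmN, by simp⟩
  | succ t ih =>
    obtain ⟨N1, h1, h2, h3⟩ := ih
    obtain ⟨N2, g1, g2, g3⟩ := step hb hk hmk N1 h1 h2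
    exact ⟨N2, g1, g2, by rw [g3, h3]; ring⟩

lemma core_pos {b n : ℕ} (hn : 1 ≤ n) : 0 < core b n :=
  Nat.div_pos (Nat.gcd_le_left _ hn) (Nat.gcd_pos_of_pos_left _ hn)

lemma core_mul {b n : ℕ} : core b n * Nat.gcd n (b ^ n) = n :=
  Nat.div_mul_cancel (Nat.gcd_dvd_left _ _)

lemma core_coprime {b n : ℕ} (hn : 1 ≤ n) : Nat.Coprime (core b n) b := by
  rw [Nat.coprime_iff_gcd_eq_one]
  by_contra hne
  obtain ⟨p, hp, hpd⟩ := Nat.exists_prime_and_dvd hne
  have hp1 : p ∣ core b n := hpd.trans (Nat.gcd_dvd_left _ _)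
  have hp2 : p ∣ b := hpd.trans (Nat.gcd_dvd_right _ _)
  have hv : p ^ (n.factorization p) ∣ n := Nat.ordProj_dvd n p
  have hvn : n.factorization p ≤ n := (Nat.factorization_lt p (by omega)).le
  have hv2 : p ^ (n.factorization p) ∣ b ^ n :=
    (pow_dvd_pow p hvn).trans (pow_dvd_pow_of_dvd hp2 n)
  have hg : p ^ (n.factorization p) ∣ Nat.gcd n (b ^ n) := Nat.dvd_gcd hv hv2
  have h3 : p ^ (n.factorization p + 1) ∣ n := by
    have h4 : p * p ^ (n.factorization p) ∣ core b n * Nat.gcd n (b ^ n) :=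
      Nat.mul_dvd_mul hp1 hg
    rw [core_mul] at h4
    rwa [pow_succ, mul_comm]
  exact Nat.pow_succ_factorization_not_dvd (by omega) hp h3


lemma mem_of_core {b n N u : ℕ} (hb : 2 ≤ b) (hN : 0 < N) (h : core b n ∣ N)
    (hu : (Nat.digits b N).sum = u) : u ∈ Out b n := by
  refine ⟨N * b ^ n, Nat.mul_pos hN (by positivity), ?_, ?_⟩
  · conv_lhs => rw [← core_mul (b := b) (n := n)]
    exact Nat.mul_dvd_mul h (Nat.gcd_dvd_right _ _)
  · rw [ds_mul_pow hb, hu]

lemma gcd_core {b n : ℕ} (hb : 2 ≤ b) :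
    Nat.gcd (b - 1) n = Nat.gcd (b - 1) (core b n) := by
  have h1 : Nat.Coprime (b - 1) b := by
    have h3 : b = (b - 1) + 1 := by omega
    conv_rhs => rw [h3]
    exact (Nat.coprime_self_add_right).mpr (Nat.coprime_one_right _)
  have h2 : Nat.Coprime (b - 1) (Nat.gcd n (b ^ n)) :=
    Nat.Coprime.coprime_dvd_right (Nat.gcd_dvd_right _ _) (Nat.Coprime.pow_right n h1)
  conv_lhs => rw [← core_mul (b := b) (n := n)]
  exact Nat.Coprime.gcd_mul_right_cancel_right _ h2.symm

lemma core_dvd {b n : ℕ} : core b n ∣ n := Nat.div_dvd_of_dvd (Nat.gcd_dvd_left _ _)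

end Pool.Agent.Lib.MP_6ae9d2_nt
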