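import Pool.Agent.Lib.MP_6ae9d2_nt.Reduce

set_option autoImplicit false

namespace Pool.Agent.Lib.MP_6ae9d2_nt.Red

open Pool.Agent.Lib.MP_6ae9d2_nt Finset

lemma add_pow_one {b G r : ℕ} (hb : 2 ≤ b) (hr : 1 ≤ r) (hG : G ∣ b ^ r - 1) (N c : ℕ) :
    ∃ N' : ℕ, N' ≡ N + b ^ c [MOD G] ∧
      (Nat.digits b N').sum = (Nat.digits b N).sum + 1 := by
  have hone : b ^ (r * N) ≡ 1 [MOD G] := by
    have h1 : G ∣ b ^ (r * N) - 1 := by
      refine hG.trans ?_
      rw [pow_mul]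
      simpa using Nat.sub_dvd_pow_sub_pow (b ^ r) 1 N
    exact ((Nat.modEq_iff_dvd' (Nat.one_le_pow _ _ (by omega))).mpr h1).symm
  have hlt : N < b ^ (r * N + c) := by
    calc N < b ^ N := Nat.lt_pow_self (by omega)
      _ ≤ b ^ (r * N) := Nat.pow_le_pow_right (by omega) (Nat.le_mul_of_pos_left _ hr)
      _ ≤ _ := Nat.pow_le_pow_right (by omega) (by omega)
  refine ⟨1 * b ^ (r * N + c) + N, ?_, ?_⟩
  · have h1 : b ^ (r * N + c) ≡ b ^ c [MOD G] := by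
      rw [pow_add]; simpa using hone.mul_right (b ^ c)
    calc 1 * b ^ (r * N + c) + N = N + b ^ (r * N + c) := by ring
      _ ≡ N + b ^ c [MOD G] := h1.add_left N
  · rw [ds_split hb 1 _ _ hlt, ds_one hb]; ring

lemma add_pow_many {b G r : ℕ} (hb : 2 ≤ b) (hr : 1 ≤ r) (hG : G ∣ b ^ r - 1) (N c k : ℕ) :
    ∃ N' : ℕ, N' ≡ N + k * b ^ c [MOD G] ∧
      (Nat.digits b N').sum = (Nat.digits b N).sum + k := by
  induction k with
  | zero => exact ⟨N, by simpa using Nat.ModEq.refl N, by simp⟩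
  | succ k ih =>
    obtain ⟨N1, h1, h2⟩ := ih
    obtain ⟨N2, g1, g2⟩ := add_pow_one hb hr hG N1 c
    refine ⟨N2, ?_, by rw [g2, h2]; ring⟩
    calc N2 ≡ N1 + b ^ c [MOD G] := g1
      _ ≡ (N + k * b ^ c) + b ^ c [MOD G] := h1.add_right _
      _ = N + (k + 1) * b ^ c := by ring

lemma build {b G r : ℕ} (hb : 2 ≤ b) (hr : 1 ≤ r) (hG : G ∣ b ^ r - 1) (f : ℕ → ℕ) (k : ℕ) :
    ∃ N : ℕ, N ≡ ∑ i ∈ range k, f i * b ^ i [MOD G] ∧
      (Nat.digits b N).sum = ∑ i ∈ range k, f i := by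
  induction k with
  | zero => exact ⟨0, by simpa using Nat.ModEq.refl 0, by simp⟩
  | succ k ih =>
    obtain ⟨N1, h1, h2⟩ := ih
    obtain ⟨N2, g1, g2⟩ := add_pow_many hb hr hG N1 k (f k)
    refine ⟨N2, ?_, by rw [g2, h2, Finset.sum_range_succ]⟩
    rw [Finset.sum_range_succ]
    exact g1.trans (h1.add_right _)

lemma split_mod {b r : ℕ} (hb : 2 ≤ b) (N : ℕ) :
    ∃ f : ℕ → ℕ, ∑ i ∈ range (r + 1), f i = (Nat.digits b N).sum ∧
      N ≡ ∑ i ∈ range (r + 1), f i * b ^ i [MOD (b ^ (r + 1) - 1)] := by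
  induction N using Nat.strong_induction_on with
  | _ N ih =>
    rcases Nat.eq_zero_or_pos N with h | h
    · subst h
      exact ⟨fun _ => 0, by simp, by simpa using Nat.ModEq.refl 0⟩
    · have hdm := Nat.div_add_mod N b
      have hc : N % b < b := Nat.mod_lt _ (by omega)
      obtain ⟨f, h1, h2⟩ := ih (N / b) (Nat.div_lt_self h (by omega))
      refine ⟨fun i => if i = 0 then f r + N % b else f (i - 1), ?_, ?_⟩
      · rw [Finset.sum_range_succ']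
        simp only [Nat.add_eq_zero_iff, one_ne_zero, and_false, if_false, if_true,
          Nat.add_sub_cancel]
        have h3 : (Nat.digits b N).sum = (Nat.digits b (N / b)).sum + N % b := by
          conv_lhs => rw [← hdm]
          rw [ds_rec hb _ _ hc]
        rw [h3, ← h1, Finset.sum_range_succ]; ring
      · rw [Finset.sum_range_succ']
        simp only [Nat.add_eq_zero_iff, one_ne_zero, and_false, if_false, if_true,
          Nat.add_sub_cancel, pow_zero, mul_one]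
        have h3 : N ≡ b * (∑ i ∈ range (r + 1), f i * b ^ i) + N % b [MOD (b ^ (r + 1) - 1)] := by
          have := (h2.mul_left b).add_right (N % b)
          rwa [hdm] at this
        refine h3.trans ?_
        have h4 : 1 ≤ b ^ (r + 1) := Nat.one_le_pow _ _ (by omega)
        have h5 : b ^ (r + 1) ≡ 1 [MOD (b ^ (r + 1) - 1)] :=
          ((Nat.modEq_iff_dvd' h4).mpr dvd_rfl).symm
        have h6 : b * (∑ i ∈ range (r + 1), f i * b ^ i) + N % b =
            (∑ i ∈ range r, f i * b ^ (i + 1)) + (f r * b ^ (r + 1) + N % b) := by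
          rw [Finset.sum_range_succ, mul_add, Finset.mul_sum]
          have h7 : ∑ i ∈ range r, b * (f i * b ^ i) = ∑ i ∈ range r, f i * b ^ (i + 1) :=
            Finset.sum_congr rfl fun i _ => by ring
          rw [h7]; ring
        rw [h6]
        refine Nat.ModEq.add_left _ (Nat.ModEq.add_right _ ?_)
        simpa using h5.mul_left (f r)

/-- Digit sums of the multiples of a divisor of `b ^ r - 1`. -/
lemma char_gen {b G r : ℕ} (hb : 2 ≤ b) (hr : 1 ≤ r) (hG : G ∣ b ^ r - 1) (u : ℕ) :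
    u ∈ Out b G ↔ 1 ≤ u ∧ ∃ f : ℕ → ℕ, ∑ i ∈ range r, f i = u ∧
      G ∣ ∑ i ∈ range r, f i * b ^ i := by
  obtain ⟨s, rfl⟩ : ∃ s, r = s + 1 := ⟨r - 1, by omega⟩
  constructor
  · rintro ⟨N, hN, hGN, rfl⟩
    refine ⟨ds_pos hb hN, ?_⟩
    obtain ⟨f, h1, h2⟩ := split_mod (r := s) hb N
    exact ⟨f, h1, (Nat.ModEq.dvd_iff (h2.of_dvd hG) dvd_rfl).mp hGN⟩
  · rintro ⟨hu, f, hf, hdvd⟩
    obtain ⟨N, h1, h2⟩ := build hb hr hG f (s + 1)
    refine ⟨N, ?_, (Nat.ModEq.dvd_iff h1 dvd_rfl).mpr hdvd, by rw [h2, hf]⟩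
    rcases Nat.eq_zero_or_pos N with h | h
    · rw [h] at h2; simp only [Nat.digits_zero, List.sum_nil] at h2; omega
    · exact h

lemma char_three {b G : ℕ} (hb : 2 ≤ b) (hG : G ∣ b ^ 3 - 1) (u : ℕ) :
    u ∈ Out b G ↔ 1 ≤ u ∧ ∃ a₀ a₁ a₂ : ℕ, a₀ + a₁ + a₂ = u ∧ G ∣ a₀ + a₁ * b + a₂ * b ^ 2 := by
  rw [char_gen hb (by norm_num) hG]
  refine and_congr_right fun _ => ⟨?_, ?_⟩
  · rintro ⟨f, h1, h2⟩
    refine ⟨f 0, f 1, f 2, ?_, ?_⟩
    · rw [← h1]; simp [Finset.sum_range_succ]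
    · simpa [Finset.sum_range_succ] using h2
  · rintro ⟨a₀, a₁, a₂, h1, h2⟩
    refine ⟨fun i => if i = 0 then a₀ else if i = 1 then a₁ else a₂, ?_, ?_⟩
    · rw [← h1]; simp [Finset.sum_range_succ]
    · simpa [Finset.sum_range_succ] using h2

lemma char_four {b G : ℕ} (hb : 2 ≤ b) (hG : G ∣ b ^ 4 - 1) (u : ℕ) :
    u ∈ Out b G ↔ 1 ≤ u ∧ ∃ a₀ a₁ a₂ a₃ : ℕ, a₀ + a₁ + a₂ + a₃ = u ∧
      G ∣ a₀ + a₁ * b + a₂ * b ^ 2 + a₃ * b ^ 3 := by
  rw [char_gen hb (by norm_num) hG]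
  refine and_congr_right fun _ => ⟨?_, ?_⟩
  · rintro ⟨f, h1, h2⟩
    refine ⟨f 0, f 1, f 2, f 3, ?_, ?_⟩
    · rw [← h1]; simp [Finset.sum_range_succ]
    · simpa [Finset.sum_range_succ] using h2
  · rintro ⟨a₀, a₁, a₂, a₃, h1, h2⟩
    refine ⟨fun i => if i = 0 then a₀ else if i = 1 then a₁ else if i = 2 then a₂ else a₃, ?_, ?_⟩
    · rw [← h1]; simp [Finset.sum_range_succ]
    · simpa [Finset.sum_range_succ] using h2

end Pool.Agent.Lib.MP_6ae9d2_nt.Red
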