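import Mathlib

set_option autoImplicit false

namespace Pool.Agent.Lib.MP_6ae9d2_nt

/-- `Out b n` is the set of the base-`b` digit sums of the positive multiples of `n`. -/
def Out (b n : ℕ) : Set ℕ :=
  {u | ∃ N : ℕ, 0 < N ∧ n ∣ N ∧ (Nat.digits b N).sum = u}

/-- `core b n` is the largest divisor of `n` that is coprime to `b`. -/
def core (b n : ℕ) : ℕ := n / Nat.gcd n (b ^ n)

end Pool.Agent.Lib.MP_6ae9d2_nt
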