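import Pool.Agent.Lib.MP_6ae9d2_nt.Gauss

set_option autoImplicit false

namespace Pool.Agent.Lib.MP_6ae9d2_nt.Red

lemma norm_two {X Y e : ℤ} (he : ¬ 2 ∣ e) (h : X ^ 2 + X * Y + Y ^ 2 = e * 2) : False := by
  rcases Int.even_or_odd' X with ⟨A, hA | hA⟩ <;> rcases Int.even_or_odd' Y with ⟨B, hB | hB⟩
  · apply he
    rw [hA, hB] at h
    exact ⟨A ^ 2 + A * B + B ^ 2, by linarith⟩
  · rw [hA, hB] at h
    have : (2 * A) ^ 2 + 2 * A * (2 * B + 1) + (2 * B + 1) ^ 2 =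
        2 * (2 * A ^ 2 + A * (2 * B + 1) + 2 * B ^ 2 + 2 * B) + 1 := by ring
    omega
  · rw [hA, hB] at h
    have : (2 * A + 1) ^ 2 + (2 * A + 1) * (2 * B) + (2 * B) ^ 2 =
        2 * (2 * A ^ 2 + 2 * A + (2 * A + 1) * B + 2 * B ^ 2) + 1 := by ring
    omega
  · rw [hA, hB] at h
    have : (2 * A + 1) ^ 2 + (2 * A + 1) * (2 * B + 1) + (2 * B + 1) ^ 2 =
        2 * (2 * A ^ 2 + 3 * A + 2 * A * B + 3 * B + 2 * B ^ 2 + 1) + 1 := by ring
    omega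

lemma three_exists {e b : ℕ} (he : 1 ≤ e) (h3 : ¬ 3 ∣ e) (h : e ∣ b ^ 2 + b + 1) :
    ∃ x y : ℕ, x ^ 2 + x * y + y ^ 2 = e ∧ e ∣ x + (b + 1) * y := by
  have hz : (e : ℤ) ∣ (b : ℤ) ^ 2 + b + 1 := by exact_mod_cast h
  have he' : (0 : ℤ) < e := by exact_mod_cast he
  have hodd : ¬ (2 : ℤ) ∣ e := by
    intro h2
    have h4 : (2 : ℤ) ∣ (b : ℤ) ^ 2 + b + 1 := h2.trans hz
    rcases Int.even_or_odd' (b : ℤ) with ⟨A, hA | hA⟩
    · rw [hA] at h4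
      have : (2 * A) ^ 2 + 2 * A + 1 = 2 * (2 * A ^ 2 + A) + 1 := by ring
      omega
    · rw [hA] at h4
      have : (2 * A + 1) ^ 2 + (2 * A + 1) + 1 = 2 * (2 * A ^ 2 + 3 * A + 1) + 1 := by ring
      omega
  -- an integer vector of norm `e`
  obtain ⟨X, Y, hn, hd⟩ : ∃ X Y : ℤ, X ^ 2 + X * Y + Y ^ 2 = e ∧
      (e : ℤ) ∣ X + ((b : ℤ) + 1) * Y := by
    obtain ⟨X, Y, h0, hX, hY, hd⟩ := thue e (b + 1) he
    push_cast at hd
    have hdn : (e : ℤ) ∣ X ^ 2 + X * Y + Y ^ 2 := by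
      have h1 : X ^ 2 + X * Y + Y ^ 2 = (X + ((b : ℤ) + 1) * Y) * (X - b * Y) +
          ((b : ℤ) ^ 2 + b + 1) * Y ^ 2 := by ring
      rw [h1]
      exact dvd_add (Dvd.dvd.mul_right hd _) (Dvd.dvd.mul_right hz _)
    obtain ⟨t, ht⟩ := hdn
    have hpos : 0 < X ^ 2 + X * Y + Y ^ 2 := by
      rcases h0 with h1 | h1
      · nlinarith [sq_nonneg (X + 2 * Y), sq_pos_of_ne_zero h1]
      · nlinarith [sq_nonneg (2 * X + Y), sq_pos_of_ne_zero h1]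
    have ht1 : 0 < t := by
      by_contra hcon
      have : (e : ℤ) * t ≤ 0 := mul_nonpos_of_nonneg_of_nonpos he'.le (by omega)
      omega
    have ht2 : t ≤ 3 := by
      by_contra hcon
      have h1 : (e : ℤ) * 4 ≤ e * t := mul_le_mul_of_nonneg_left (by omega) he'.le
      nlinarith [sq_nonneg (X - Y)]
    have ht' : t = 1 ∨ t = 2 ∨ t = 3 := by omega
    rcases ht' with rfl | rfl | rfl
    · exact ⟨X, Y, by linarith, hd⟩
    · exact (norm_two hodd ht).elim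
    · have hpar : (3 : ℤ) ∣ Y - X := by
        have h1 : (Y - X) ^ 2 = 3 * ((e : ℤ) - X * Y) := by
          have : (Y - X) ^ 2 = (X ^ 2 + X * Y + Y ^ 2) - 3 * (X * Y) := by ring
          rw [this, ht]; ring
        exact Int.prime_three.dvd_of_dvd_pow ⟨_, h1⟩
      obtain ⟨B, hB⟩ := hpar
      have hY' : Y = X + 3 * B := by linarith
      refine ⟨X + B, B, ?_, ?_⟩
      · have h1 : X ^ 2 + X * Y + Y ^ 2 = 3 * ((X + B) ^ 2 + (X + B) * B + B ^ 2) := by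
          rw [hY']; ring
        rw [h1] at ht
        linarith
      · have h1 : (e : ℤ) ∣ 3 * (X + B + ((b : ℤ) + 1) * B) := by
          have h2 : 3 * (X + B + ((b : ℤ) + 1) * B) =
              (X + ((b : ℤ) + 1) * Y) * (1 - b) + ((b : ℤ) ^ 2 + b + 1) * Y := by
            have : 3 * (X + B + ((b : ℤ) + 1) * B) =
                (2 * X + Y) + ((b : ℤ) + 1) * (Y - X) := by rw [hB, hY']; ring
            rw [this]; ring
          rw [h2]
          exact dvd_add (Dvd.dvd.mul_right hd _) (Dvd.dvd.mul_right hz _)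
        have h3' : IsCoprime (e : ℤ) 3 := by
          rw [Int.isCoprime_iff_gcd_eq_one]
          have : Nat.Coprime e 3 := ((Nat.Prime.coprime_iff_not_dvd Nat.prime_three).mpr h3).symm
          exact_mod_cast this
        exact h3'.dvd_of_dvd_mul_left h1
  -- rotation into the first sector
  have fin : ∀ A B : ℤ, 0 ≤ A → 0 ≤ B → A ^ 2 + A * B + B ^ 2 = e →
      (e : ℤ) ∣ A + ((b : ℤ) + 1) * B →
      ∃ x y : ℕ, x ^ 2 + x * y + y ^ 2 = e ∧ e ∣ x + (b + 1) * y := by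
    intro A B hA hB h1 h2
    obtain ⟨x, rfl⟩ := Int.eq_ofNat_of_zero_le hA
    obtain ⟨y, rfl⟩ := Int.eq_ofNat_of_zero_le hB
    exact ⟨x, y, by exact_mod_cast h1, by exact_mod_cast h2⟩
  have fin2 : ∀ A B : ℤ, A ≤ 0 → 0 ≤ B → A ^ 2 + A * B + B ^ 2 = e →
      (e : ℤ) ∣ A + ((b : ℤ) + 1) * B →
      ∃ x y : ℕ, x ^ 2 + x * y + y ^ 2 = e ∧ e ∣ x + (b + 1) * y := by
    intro A B hA hB h1 h2
    rcases le_total 0 (A + B) with h4 | h4
    · refine fin (A + B) (-A) h4 (by linarith) (by rw [← h1]; ring) ?_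
      have : A + B + ((b : ℤ) + 1) * (-A) =
          ((b : ℤ) ^ 2 + b + 1) * B - (A + ((b : ℤ) + 1) * B) * b := by ring
      rw [this]
      exact dvd_sub (Dvd.dvd.mul_right hz _) (Dvd.dvd.mul_right h2 _)
    · refine fin B (-A - B) hB (by linarith) (by rw [← h1]; ring) ?_
      have : B + ((b : ℤ) + 1) * (-A - B) =
          ((b : ℤ) ^ 2 + b + 1) * B - (A + ((b : ℤ) + 1) * B) * (b + 1) := by ring
      rw [this]
      exact dvd_sub (Dvd.dvd.mul_right hz _) (Dvd.dvd.mul_right h2 _)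
  have hneg : (e : ℤ) ∣ -X + ((b : ℤ) + 1) * (-Y) := by
    have : -X + ((b : ℤ) + 1) * (-Y) = -(X + ((b : ℤ) + 1) * Y) := by ring
    rw [this]
    exact (dvd_neg).mpr hd
  rcases le_total 0 X with h1 | h1 <;> rcases le_total 0 Y with h2 | h2
  · exact fin X Y h1 h2 hn hd
  · exact fin2 (-X) (-Y) (by linarith) (by linarith) (by rw [← hn]; ring) hneg
  · exact fin2 X Y h1 h2 hn hd
  · exact fin (-X) (-Y) (by linarith) (by linarith) (by rw [← hn]; ring) hneg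

lemma three_min {e b x y : ℕ} (he : 1 ≤ e) (h3 : ¬ 3 ∣ e) (h : e ∣ b ^ 2 + b + 1)
    (hxy : x ^ 2 + x * y + y ^ 2 = e) (hd : e ∣ x + (b + 1) * y) {a₀ a₁ a₂ u : ℕ}
    (hsum : a₀ + a₁ + a₂ = u) (hu : ¬ 3 ∣ u)
    (hD : (e : ℤ) ∣ ((a₀ : ℤ) - a₁) + ((b : ℤ) + 1) * ((a₁ : ℤ) - a₂)) :
    (u ≡ x + 2 * y [MOD 3] ∧ x + 2 * y ≤ u) ∨ (u ≡ 2 * x + y [MOD 3] ∧ 2 * x + y ≤ u) := by
  have hz : (e : ℤ) ∣ (b : ℤ) ^ 2 + b + 1 := by exact_mod_cast h
  have hdz : (e : ℤ) ∣ (x : ℤ) + ((b : ℤ) + 1) * y := by exact_mod_cast hd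
  have hn : (x : ℤ) ^ 2 + (x : ℤ) * y + (y : ℤ) ^ 2 = e := by exact_mod_cast hxy
  have he' : (0 : ℤ) < e := by exact_mod_cast he
  obtain ⟨X, hXd⟩ : ∃ X : ℤ, X = (a₀ : ℤ) - a₁ := ⟨_, rfl⟩
  obtain ⟨Y, hYd⟩ : ∃ Y : ℤ, Y = (a₁ : ℤ) - a₂ := ⟨_, rfl⟩
  rw [← hXd, ← hYd] at hD
  obtain ⟨P, hP⟩ : (e : ℤ) ∣ X * x + X * y + Y * y := by
    have h1 : X * x + X * y + Y * y = (X + ((b : ℤ) + 1) * Y) * (x + y) -
        (x + ((b : ℤ) + 1) * y) * (((b : ℤ) + 1) * Y) + ((b : ℤ) ^ 2 + b + 1) * (Y * y) := by ring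
    rw [h1]
    exact dvd_add (dvd_sub (Dvd.dvd.mul_right hD _) (Dvd.dvd.mul_right hdz _))
      (Dvd.dvd.mul_right hz _)
  obtain ⟨Q, hQ⟩ : (e : ℤ) ∣ Y * x - X * y := by
    have h1 : Y * x - X * y = (x + ((b : ℤ) + 1) * y) * Y - (X + ((b : ℤ) + 1) * Y) * y := by ring
    rw [h1]
    exact dvd_sub (Dvd.dvd.mul_right hdz _) (Dvd.dvd.mul_right hD _)
  have hX : X = P * x - Q * y := by
    have h1 : (e : ℤ) * X = e * (P * x - Q * y) := by
      have : (e : ℤ) * X = (X * x + X * y + Y * y) * x - (Y * x - X * y) * y := by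
        rw [← hn]; ring
      rw [this, hP, hQ]; ring
    exact mul_left_cancel₀ he'.ne' h1
  have hY : Y = P * y + Q * x + Q * y := by
    have h1 : (e : ℤ) * Y = e * (P * y + Q * x + Q * y) := by
      have : (e : ℤ) * Y = (X * x + X * y + Y * y) * y + (Y * x - X * y) * (x + y) := by
        rw [← hn]; ring
      rw [this, hP, hQ]; ring
    exact mul_left_cancel₀ he'.ne' h1
  have hN : X ^ 2 + X * Y + Y ^ 2 = e * (P ^ 2 + P * Q + Q ^ 2) := by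
    rw [hX, hY, ← hn]; ring
  by_cases hle : P ^ 2 + P * Q + Q ^ 2 ≤ 3
  · have hP1 : -2 ≤ P ∧ P ≤ 2 := by
      constructor <;> nlinarith [sq_nonneg (P + 2 * Q)]
    have hQ1 : -2 ≤ Q ∧ Q ≤ 2 := by
      constructor <;> nlinarith [sq_nonneg (2 * P + Q)]
    obtain ⟨hP1, hP2⟩ := hP1
    obtain ⟨hQ1, hQ2⟩ := hQ1
    unfold Nat.ModEq
    interval_cases P <;> interval_cases Q <;> first
      | (exfalso; norm_num at hle; done)
      | omega
  · have h4 : 4 ≤ P ^ 2 + P * Q + Q ^ 2 := by omega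
    have h5 : (e : ℤ) * 4 ≤ X ^ 2 + X * Y + Y ^ 2 := by
      rw [hN]; exact mul_le_mul_of_nonneg_left h4 he'.le
    have h6 : X ^ 2 + X * Y + Y ^ 2 ≤ (u : ℤ) ^ 2 := by
      have h7 : (u : ℤ) = a₀ + a₁ + a₂ := by rw [← hsum]; push_cast; ring
      rw [hXd, hYd, h7]
      have e1 : (0 : ℤ) ≤ (a₀ : ℤ) * a₁ := by positivity
      have e2 : (0 : ℤ) ≤ (a₁ : ℤ) * a₂ := by positivity
      have e3 : (0 : ℤ) ≤ (a₀ : ℤ) * a₂ := by positivity
      nlinarith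
    have h7 : (e : ℤ) * 4 ≤ (u : ℤ) ^ 2 := h5.trans h6
    have hu0 : (0 : ℤ) ≤ u := by positivity
    have hx0 : (0 : ℤ) ≤ x := by positivity
    have hy0 : (0 : ℤ) ≤ y := by positivity
    have b1 : (x : ℤ) + 2 * y ≤ u := by
      apply (pow_le_pow_iff_left₀ (by positivity) hu0 (n := 2) (by norm_num)).mp
      refine le_trans ?_ h7
      rw [← hn]
      nlinarith [sq_nonneg (x : ℤ)]
    have b2 : 2 * (x : ℤ) + y ≤ u := by
      apply (pow_le_pow_iff_left₀ (by positivity) hu0 (n := 2) (by norm_num)).mp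
      refine le_trans ?_ h7
      rw [← hn]
      nlinarith [sq_nonneg (y : ℤ)]
    have hmod : ¬ 3 ∣ x + 2 * y := by
      intro hcon
      apply h3
      obtain ⟨w, hw⟩ := hcon
      rw [← hxy]
      have h8 : (3 : ℤ) ∣ (x : ℤ) ^ 2 + (x : ℤ) * y + (y : ℤ) ^ 2 := by
        have h9 : (x : ℤ) = 3 * w - 2 * y := by
          have : ((x + 2 * y : ℕ) : ℤ) = 3 * w := by rw [hw]; push_cast; ring
          push_cast at this; linarith
        rw [h9]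
        exact ⟨3 * w ^ 2 - 3 * w * y + y ^ 2, by ring⟩
      exact_mod_cast h8
    unfold Nat.ModEq
    omega

end Pool.Agent.Lib.MP_6ae9d2_nt.Red
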