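import Mathlib

set_option autoImplicit false

namespace Pool.Agent.Lib.MP_6ae9d2_nt.Red

/-- Small vectors in the lattice `e ∣ X + c Y`. -/
lemma thue (e c : ℕ) (he : 1 ≤ e) : ∃ X Y : ℤ, (X ≠ 0 ∨ Y ≠ 0) ∧ X ^ 2 ≤ e ∧ Y ^ 2 ≤ e ∧
    (e : ℤ) ∣ X + c * Y := by
  obtain ⟨k, hk1, hk2⟩ : ∃ k : ℕ, e < (k + 1) * (k + 1) ∧ k * k ≤ e :=
    ⟨Nat.sqrt e, Nat.lt_succ_sqrt e, Nat.sqrt_le e⟩
  obtain ⟨p, hp, q, hq, hne, heq⟩ := Finset.exists_ne_map_eq_of_card_lt_of_maps_to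
    (s := Finset.range (k + 1) ×ˢ Finset.range (k + 1)) (t := Finset.range e)
    (f := fun p : ℕ × ℕ => (p.1 + c * p.2) % e)
    (by rw [Finset.card_product, Finset.card_range, Finset.card_range]; exact hk1)
    (by
      intro p _
      simp only [Finset.coe_range, Set.mem_Iio]
      exact Nat.mod_lt _ he)
  rw [Finset.mem_product, Finset.mem_range, Finset.mem_range] at hp hq
  have hb : ∀ a a' : ℕ, a < k + 1 → a' < k + 1 → ((a : ℤ) - a') ^ 2 ≤ e := by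
    intro a a' h1 h2
    have h3 : (0 : ℤ) ≤ k - ((a : ℤ) - a') := by omega
    have h4 : (0 : ℤ) ≤ k + ((a : ℤ) - a') := by omega
    have h5 : ((k * k : ℕ) : ℤ) ≤ e := by exact_mod_cast hk2
    push_cast at h5
    nlinarith [mul_nonneg h3 h4]
  refine ⟨(p.1 : ℤ) - q.1, (p.2 : ℤ) - q.2, ?_, hb _ _ hp.1 hq.1, hb _ _ hp.2 hq.2, ?_⟩
  · by_contra hcon
    push Not at hcon
    apply hne
    ext <;> omega
  · have h1 : Nat.ModEq e (q.1 + c * q.2) (p.1 + c * p.2) := heq.symm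
    have h2 := (Nat.modEq_iff_dvd).mp h1
    have h3 : (p.1 : ℤ) - q.1 + c * ((p.2 : ℤ) - q.2) =
        ((p.1 + c * p.2 : ℕ) : ℤ) - ((q.1 + c * q.2 : ℕ) : ℤ) := by push_cast; ring
    rw [h3]; exact h2

lemma four_exists {e b : ℕ} (he : 1 ≤ e) (hodd : ¬ 2 ∣ e) (h : e ∣ b ^ 2 + 1) :
    ∃ x y : ℕ, x ^ 2 + y ^ 2 = e ∧ e ∣ x + b * y := by
  have hz : (e : ℤ) ∣ (b : ℤ) ^ 2 + 1 := by exact_mod_cast h
  -- an integer vector of norm `e`
  obtain ⟨X, Y, hn, hd⟩ : ∃ X Y : ℤ, X ^ 2 + Y ^ 2 = e ∧ (e : ℤ) ∣ X + b * Y := by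
    obtain ⟨X, Y, h0, hX, hY, hd⟩ := thue e b he
    have hdn : (e : ℤ) ∣ X ^ 2 + Y ^ 2 := by
      have h1 : X ^ 2 + Y ^ 2 = (X + b * Y) * (X - b * Y) + ((b : ℤ) ^ 2 + 1) * Y ^ 2 := by ring
      rw [h1]
      exact dvd_add (Dvd.dvd.mul_right hd _) (Dvd.dvd.mul_right hz _)
    obtain ⟨t, ht⟩ := hdn
    have hpos : 0 < X ^ 2 + Y ^ 2 := by
      rcases h0 with h1 | h1
      · positivity
      · positivity
    have he' : (0 : ℤ) < e := by exact_mod_cast he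
    have ht1 : 0 < t := by
      by_contra hcon
      have : (e : ℤ) * t ≤ 0 := mul_nonpos_of_nonneg_of_nonpos he'.le (by omega)
      omega
    have ht2 : t ≤ 2 := by
      by_contra hcon
      have h1 : (e : ℤ) * 3 ≤ e * t := mul_le_mul_of_nonneg_left (by omega) he'.le
      linarith
    have ht : t = 1 ∨ t = 2 := by omega
    rcases ht with rfl | rfl
    · exact ⟨X, Y, by linarith, hd⟩
    · have hpar : (2 : ℤ) ∣ X + Y := by
        have h1 : (X + Y) ^ 2 = 2 * ((e : ℤ) + X * Y) := by linarith [ht, sq (X + Y)]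
        exact Int.prime_two.dvd_of_dvd_pow ⟨_, h1⟩
      obtain ⟨A, hA⟩ := hpar
      obtain ⟨B, hB⟩ : (2 : ℤ) ∣ Y - X := ⟨A - X, by linarith⟩
      refine ⟨A, B, ?_, ?_⟩
      · have h1 : (X + Y) ^ 2 + (Y - X) ^ 2 = 2 * (X ^ 2 + Y ^ 2) := by ring
        rw [hA, hB, ht] at h1
        linarith
      · have h1 : (e : ℤ) ∣ 2 * (A + b * B) := by
          have h2 : 2 * (A + b * B) = (X + b * Y) * (1 - b) + ((b : ℤ) ^ 2 + 1) * Y := by
            have : 2 * (A + b * B) = (X + Y) + b * (Y - X) := by rw [hA, hB]; ring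
            rw [this]; ring
          rw [h2]
          exact dvd_add (Dvd.dvd.mul_right hd _) (Dvd.dvd.mul_right hz _)
        have h3 : IsCoprime (e : ℤ) 2 := by
          rw [Int.isCoprime_iff_gcd_eq_one]
          have : Nat.Coprime e 2 := by
            rw [Nat.coprime_two_right, ← Nat.not_even_iff_odd, even_iff_two_dvd]
            exact hodd
          exact_mod_cast this
        exact h3.dvd_of_dvd_mul_left h1
  -- rotation into the first quadrant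
  have fin : ∀ A B : ℤ, 0 ≤ A → 0 ≤ B → A ^ 2 + B ^ 2 = e → (e : ℤ) ∣ A + b * B →
      ∃ x y : ℕ, x ^ 2 + y ^ 2 = e ∧ e ∣ x + b * y := by
    intro A B hA hB h1 h2
    obtain ⟨x, rfl⟩ := Int.eq_ofNat_of_zero_le hA
    obtain ⟨y, rfl⟩ := Int.eq_ofNat_of_zero_le hB
    exact ⟨x, y, by exact_mod_cast h1, by exact_mod_cast h2⟩
  rcases le_total 0 X with h1 | h1 <;> rcases le_total 0 Y with h2 | h2
  · exact fin X Y h1 h2 hn hd
  · refine fin (-Y) X (by linarith) h1 (by linarith [hn]) ?_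
    have : -Y + b * X = (X + b * Y) * b - ((b : ℤ) ^ 2 + 1) * Y := by ring
    rw [this]
    exact dvd_sub (Dvd.dvd.mul_right hd _) (Dvd.dvd.mul_right hz _)
  · refine fin Y (-X) h2 (by linarith) (by linarith [hn]) ?_
    have : Y + b * (-X) = ((b : ℤ) ^ 2 + 1) * Y - (X + b * Y) * b := by ring
    rw [this]
    exact dvd_sub (Dvd.dvd.mul_right hz _) (Dvd.dvd.mul_right hd _)
  · refine fin (-X) (-Y) (by linarith) (by linarith) (by linarith [hn]) ?_
    have : -X + b * (-Y) = -(X + b * Y) := by ring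
    rw [this]
    exact (dvd_neg).mpr hd

lemma four_min {e b x y : ℕ} (he : 1 ≤ e) (h : e ∣ b ^ 2 + 1) (hxy : x ^ 2 + y ^ 2 = e)
    (hd : e ∣ x + b * y) {X Y : ℤ} (h0 : X ≠ 0 ∨ Y ≠ 0) (hD : (e : ℤ) ∣ X + b * Y) :
    (x : ℤ) + y ≤ |X| + |Y| := by
  have hz : (e : ℤ) ∣ (b : ℤ) ^ 2 + 1 := by exact_mod_cast h
  have hdz : (e : ℤ) ∣ (x : ℤ) + b * y := by exact_mod_cast hd
  have hn : (x : ℤ) ^ 2 + (y : ℤ) ^ 2 = e := by exact_mod_cast hxy
  have he' : (0 : ℤ) < e := by exact_mod_cast he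
  obtain ⟨P, hP⟩ : (e : ℤ) ∣ X * x + Y * y := by
    have h1 : X * x + Y * y =
        (X + b * Y) * x - (x + b * y) * (b * Y) + ((b : ℤ) ^ 2 + 1) * (Y * y) := by ring
    rw [h1]
    exact dvd_add (dvd_sub (Dvd.dvd.mul_right hD _) (Dvd.dvd.mul_right hdz _))
      (Dvd.dvd.mul_right hz _)
  obtain ⟨Q, hQ⟩ : (e : ℤ) ∣ Y * x - X * y := by
    have h1 : Y * x - X * y = (x + b * y) * Y - (X + b * Y) * y := by ring
    rw [h1]
    exact dvd_sub (Dvd.dvd.mul_right hdz _) (Dvd.dvd.mul_right hD _)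
  have hX : X = P * x - Q * y := by
    have h1 : (e : ℤ) * X = e * (P * x - Q * y) := by
      have : (e : ℤ) * X = (X * x + Y * y) * x - (Y * x - X * y) * y := by rw [← hn]; ring
      rw [this, hP, hQ]; ring
    exact mul_left_cancel₀ he'.ne' h1
  have hY : Y = P * y + Q * x := by
    have h1 : (e : ℤ) * Y = e * (P * y + Q * x) := by
      have : (e : ℤ) * Y = (X * x + Y * y) * y + (Y * x - X * y) * x := by rw [← hn]; ring
      rw [this, hP, hQ]; ring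
    exact mul_left_cancel₀ he'.ne' h1
  have hN : X ^ 2 + Y ^ 2 = e * (P ^ 2 + Q ^ 2) := by
    rw [hX, hY, ← hn]; ring
  by_cases hle : P ^ 2 + Q ^ 2 ≤ 1
  · have hP1 : -1 ≤ P ∧ P ≤ 1 := by constructor <;> nlinarith [sq_nonneg Q, sq_nonneg P]
    have hQ1 : -1 ≤ Q ∧ Q ≤ 1 := by constructor <;> nlinarith [sq_nonneg Q, sq_nonneg P]
    obtain ⟨hP1, hP2⟩ := hP1
    obtain ⟨hQ1, hQ2⟩ := hQ1
    have hx0 : (0 : ℤ) ≤ x := by positivity
    have hy0 : (0 : ℤ) ≤ y := by positivity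
    have hcases : (P = -1 ∨ P = 0 ∨ P = 1) ∧ (Q = -1 ∨ Q = 0 ∨ Q = 1) := by omega
    obtain ⟨hPc, hQc⟩ := hcases
    rcases hPc with rfl | rfl | rfl <;> rcases hQc with rfl | rfl | rfl
    · norm_num at hle
    · rw [hX, hY]
      have e1 : (-1 : ℤ) * x - 0 * y = -x := by ring
      have e2 : (-1 : ℤ) * y + 0 * x = -y := by ring
      rw [e1, e2, abs_neg, abs_neg, abs_of_nonneg hx0, abs_of_nonneg hy0]
    · norm_num at hle
    · rw [hX, hY]
      have e1 : (0 : ℤ) * x - (-1) * y = y := by ring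
      have e2 : (0 : ℤ) * y + (-1) * x = -x := by ring
      rw [e1, e2, abs_neg, abs_of_nonneg hx0, abs_of_nonneg hy0]; linarith
    · exfalso
      have e1 : X = 0 := by rw [hX]; ring
      have e2 : Y = 0 := by rw [hY]; ring
      rcases h0 with h1 | h1
      · exact h1 e1
      · exact h1 e2
    · rw [hX, hY]
      have e1 : (0 : ℤ) * x - 1 * y = -y := by ring
      have e2 : (0 : ℤ) * y + 1 * x = x := by ring
      rw [e1, e2, abs_neg, abs_of_nonneg hx0, abs_of_nonneg hy0]; linarith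
    · norm_num at hle
    · rw [hX, hY]
      have e1 : (1 : ℤ) * x - 0 * y = x := by ring
      have e2 : (1 : ℤ) * y + 0 * x = y := by ring
      rw [e1, e2, abs_of_nonneg hx0, abs_of_nonneg hy0]
    · norm_num at hle
  · have h2 : 2 ≤ P ^ 2 + Q ^ 2 := by omega
    have h3 : (e : ℤ) * 2 ≤ X ^ 2 + Y ^ 2 := by
      rw [hN]; exact mul_le_mul_of_nonneg_left h2 he'.le
    have h4 : ((x : ℤ) + y) ^ 2 ≤ (|X| + |Y|) ^ 2 := by
      have h5 : (|X| + |Y|) ^ 2 = X ^ 2 + Y ^ 2 + 2 * (|X| * |Y|) := by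
        have : (|X| + |Y|) ^ 2 = |X| ^ 2 + |Y| ^ 2 + 2 * (|X| * |Y|) := by ring
        rw [this, sq_abs, sq_abs]
      have h6 : 0 ≤ |X| * |Y| := by positivity
      nlinarith [sq_nonneg ((x : ℤ) - y)]
    exact le_of_sq_le_sq_of_nonneg h4
where
  le_of_sq_le_sq_of_nonneg {x y : ℕ} {X Y : ℤ} (h : ((x : ℤ) + y) ^ 2 ≤ (|X| + |Y|) ^ 2) :
      (x : ℤ) + y ≤ |X| + |Y| := by
    have h0 : 0 ≤ |X| + |Y| := by positivity
    exact (pow_le_pow_iff_left₀ (by positivity) h0 (by norm_num)).mp h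

end Pool.Agent.Lib.MP_6ae9d2_nt.Red
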