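import Pool.Agent.Lib.MP_6ae9d2_nt.CharGen
import Pool.Agent.Lib.MP_6ae9d2_nt.Gauss
import Pool.Agent.Lib.MP_6ae9d2_nt.Arith

set_option autoImplicit false

namespace Pool.Agent.Lib.MP_6ae9d2_nt.Red

open Pool.Agent.Lib.MP_6ae9d2_nt

lemma pow_four_eq {b : ℕ} (hb : 2 ≤ b) : b ^ 4 - 1 = (b - 1) * ((b + 1) * (b ^ 2 + 1)) := by
  have : b ^ 4 = (b - 1) * ((b + 1) * (b ^ 2 + 1)) + 1 := by
    obtain ⟨c, rfl⟩ : ∃ c, b = c + 2 := ⟨b - 2, by omega⟩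
    simp only [show c + 2 - 1 = c + 1 by omega]; ring
  omega

/-- The modulus for `r = 4`. -/
lemma gcd_four {b n : ℕ} (hb : 2 ≤ b)
    (hp : ∀ p : ℕ, p.Prime → p ∣ n → p ∣ b * ((b - 1) * (b ^ 2 + 1))) (h2 : 2 ∣ n → 2 ∣ b) :
    Nat.gcd (b ^ 4 - 1) n ∣ Nat.gcd (b - 1) n * Nat.gcd (b ^ 2 + 1) n ∧
      Nat.Coprime (Nat.gcd (b - 1) n) (Nat.gcd (b ^ 2 + 1) n) ∧ ¬ 2 ∣ Nat.gcd (b ^ 2 + 1) n := by
  have hodd : ¬ 2 ∣ Nat.gcd (b ^ 2 + 1) n := by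
    intro h
    have h3 : 2 ∣ b := h2 (h.trans (Nat.gcd_dvd_right _ _))
    have h4 : 2 ∣ b ^ 2 + 1 := h.trans (Nat.gcd_dvd_left _ _)
    have h5 : 2 ∣ b ^ 2 := Dvd.dvd.pow h3 (by norm_num)
    omega
  refine ⟨?_, ?_, hodd⟩
  · have hg : Nat.gcd (b + 1) n = 1 := by
      by_contra hne
      obtain ⟨p, hpp, hpd⟩ := Nat.exists_prime_and_dvd hne
      have h3 : p ∣ b + 1 := hpd.trans (Nat.gcd_dvd_left _ _)
      have h4 : p ∣ n := hpd.trans (Nat.gcd_dvd_right _ _)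
      have hpb : ¬ p ∣ b := by
        intro h5
        have := (Nat.dvd_add_right h5).mp h3
        exact hpp.one_lt.ne' (Nat.dvd_one.mp this)
      have hp2 : p = 2 := by
        rcases (Nat.Prime.dvd_mul hpp).mp (hp p hpp h4) with h5 | h5
        · exact (hpb h5).elim
        rcases (Nat.Prime.dvd_mul hpp).mp h5 with h6 | h6
        · exact two_of hb hpp h6 h3
        · have h7 : p ∣ (b + 1) * (b - 1) := Dvd.dvd.mul_right h3 _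
          have h8 : b ^ 2 + 1 = (b + 1) * (b - 1) + 2 := by
            obtain ⟨c, rfl⟩ : ∃ c, b = c + 1 := ⟨b - 1, by omega⟩
            simp only [Nat.add_sub_cancel]; ring
          rw [h8] at h6
          have h9 : p ∣ 2 := (Nat.dvd_add_right h7).mp h6
          exact (Nat.prime_dvd_prime_iff_eq hpp Nat.prime_two).mp h9
      rw [hp2] at h4 hpb
      exact hpb (h2 h4)
    have h3 : Nat.gcd (b ^ 4 - 1) n ∣
        Nat.gcd (b - 1) n * (Nat.gcd (b + 1) n * Nat.gcd (b ^ 2 + 1) n) := by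
      rw [pow_four_eq hb, Nat.gcd_comm, Nat.gcd_comm (b - 1) n, Nat.gcd_comm (b + 1) n,
        Nat.gcd_comm (b ^ 2 + 1) n]
      exact (Nat.gcd_mul_right_dvd_mul_gcd n (b - 1) _).trans
        (Nat.mul_dvd_mul_left _ (Nat.gcd_mul_right_dvd_mul_gcd n (b + 1) (b ^ 2 + 1)))
    rwa [hg, one_mul] at h3
  · rw [Nat.coprime_iff_gcd_eq_one]
    by_contra hne
    obtain ⟨p, hpp, hpd⟩ := Nat.exists_prime_and_dvd hne
    have h3 : p ∣ b - 1 := (hpd.trans (Nat.gcd_dvd_left _ _)).trans (Nat.gcd_dvd_left _ _)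
    have h4 : p ∣ Nat.gcd (b ^ 2 + 1) n := hpd.trans (Nat.gcd_dvd_right _ _)
    have h5 : p ∣ b ^ 2 + 1 := h4.trans (Nat.gcd_dvd_left _ _)
    have h8 : b ^ 2 + 1 = (b - 1) * (b + 1) + 2 := by
      obtain ⟨c, rfl⟩ : ∃ c, b = c + 1 := ⟨b - 1, by omega⟩
      simp only [Nat.add_sub_cancel]; ring
    rw [h8] at h5
    have h9 : p ∣ 2 := (Nat.dvd_add_right (Dvd.dvd.mul_right h3 _)).mp h5
    have h10 := (Nat.prime_dvd_prime_iff_eq hpp Nat.prime_two).mp h9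
    rw [h10] at h4
    exact hodd h4

/-- A polynomial value is congruent to the sum of the coefficients modulo `b - 1`. -/
lemma sum_modEq {b d : ℕ} (hb : 2 ≤ b) (hd : d ∣ b - 1) (a₀ a₁ a₂ a₃ : ℕ) :
    a₀ + a₁ * b + a₂ * b ^ 2 + a₃ * b ^ 3 ≡ a₀ + a₁ + a₂ + a₃ [MOD d] := by
  have h1 : b ≡ 1 [MOD d] := ((Nat.modEq_iff_dvd' (by omega)).mpr hd).symm
  have h2 : b ^ 2 ≡ 1 [MOD d] := by simpa using h1.pow 2
  have h3 : b ^ 3 ≡ 1 [MOD d] := by simpa using h1.pow 3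
  have e1 : a₁ * b ≡ a₁ [MOD d] := by simpa using h1.mul_left a₁
  have e2 : a₂ * b ^ 2 ≡ a₂ [MOD d] := by simpa using h2.mul_left a₂
  have e3 : a₃ * b ^ 3 ≡ a₃ [MOD d] := by simpa using h3.mul_left a₃
  exact ((e1.add_left a₀).add e2).add e3

theorem out_four {b n : ℕ} (hb : 2 ≤ b) (hn : 1 ≤ n)
    (hp : ∀ p : ℕ, p.Prime → p ∣ n → p ∣ b * ((b - 1) * (b ^ 2 + 1))) (h2 : 2 ∣ n → 2 ∣ b) :
    (∃ x y : ℕ, x ^ 2 + y ^ 2 = Nat.gcd (b ^ 2 + 1) n ∧ Nat.gcd (b ^ 2 + 1) n ∣ x + b * y) ∧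
      ∀ x y : ℕ, x ^ 2 + y ^ 2 = Nat.gcd (b ^ 2 + 1) n → Nat.gcd (b ^ 2 + 1) n ∣ x + b * y →
        Out b n = {u : ℕ | 1 ≤ u ∧ Nat.gcd (b - 1) n ∣ u ∧ (2 ∣ u ∨ x + y ≤ u)} := by
  obtain ⟨hG, hcop, hodd⟩ := gcd_four hb hp h2
  have he0 : 1 ≤ Nat.gcd (b ^ 2 + 1) n := Nat.gcd_pos_of_pos_right _ hn
  have heb : Nat.gcd (b ^ 2 + 1) n ∣ b ^ 2 + 1 := Nat.gcd_dvd_left _ _
  have hdb : Nat.gcd (b - 1) n ∣ b - 1 := Nat.gcd_dvd_left _ _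
  have hdG : Nat.gcd (b - 1) n ∣ Nat.gcd (b ^ 4 - 1) n :=
    Nat.gcd_dvd_gcd_of_dvd_left _ (by rw [pow_four_eq hb]; exact Dvd.intro _ rfl)
  have heG : Nat.gcd (b ^ 2 + 1) n ∣ Nat.gcd (b ^ 4 - 1) n :=
    Nat.gcd_dvd_gcd_of_dvd_left _ (by
      rw [pow_four_eq hb]; exact ⟨(b - 1) * (b + 1), by ring⟩)
  have hp4 : ∀ p : ℕ, p.Prime → p ∣ n → p ∣ b * (b ^ 4 - 1) := by
    intro p h3 h4
    refine (hp p h3 h4).trans (Nat.mul_dvd_mul_left b ?_)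
    rw [pow_four_eq hb]
    exact ⟨b + 1, by ring⟩
  refine ⟨four_exists he0 hodd heb, fun x y hxy hd => ?_⟩
  rw [out_eq hb hn (r := 4) (by norm_num) hp4 (fun _ _ => by norm_num)]
  ext u
  rw [char_four hb (Nat.gcd_dvd_left _ _)]
  simp only [Set.mem_setOf_eq]
  refine and_congr_right fun hu => ?_
  have hezb : ((Nat.gcd (b ^ 2 + 1) n : ℕ) : ℤ) ∣ (b : ℤ) ^ 2 + 1 := by exact_mod_cast heb
  constructor
  · rintro ⟨a₀, a₁, a₂, a₃, hsum, hdvd⟩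
    refine ⟨?_, ?_⟩
    · have h3 := hdG.trans hdvd
      rw [← hsum]
      exact (Nat.ModEq.dvd_iff (sum_modEq hb hdb a₀ a₁ a₂ a₃) dvd_rfl).mp h3
    · by_cases h2u : 2 ∣ u
      · exact Or.inl h2u
      right
      have h3 : ((Nat.gcd (b ^ 2 + 1) n : ℕ) : ℤ) ∣
          ((a₀ + a₁ * b + a₂ * b ^ 2 + a₃ * b ^ 3 : ℕ) : ℤ) := by
        exact_mod_cast heG.trans hdvd
      have h4 : ((Nat.gcd (b ^ 2 + 1) n : ℕ) : ℤ) ∣
          ((a₀ : ℤ) - a₂) + b * ((a₁ : ℤ) - a₃) := by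
        have h5 : ((a₀ : ℤ) - a₂) + b * ((a₁ : ℤ) - a₃) =
            ((a₀ + a₁ * b + a₂ * b ^ 2 + a₃ * b ^ 3 : ℕ) : ℤ) -
              ((b : ℤ) ^ 2 + 1) * (a₂ + a₃ * b) := by push_cast; ring
        rw [h5]
        exact dvd_sub h3 (Dvd.dvd.mul_right hezb _)
      have h5 : (a₀ : ℤ) - a₂ ≠ 0 ∨ (a₁ : ℤ) - a₃ ≠ 0 := by
        by_contra hcon
        push Not at hcon
        apply h2u
        exact ⟨a₂ + a₃, by omega⟩
      have h6 := four_min he0 heb hxy hd h5 h4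
      have h7 : |(a₀ : ℤ) - a₂| ≤ a₀ + a₂ := by rw [abs_le]; constructor <;> omega
      have h8 : |(a₁ : ℤ) - a₃| ≤ a₁ + a₃ := by rw [abs_le]; constructor <;> omega
      omega
  · rintro ⟨hdu, hcond⟩
    -- it suffices to divide by `d` and `e`
    have suff : ∀ a₀ a₁ a₂ a₃ : ℕ, a₀ + a₁ + a₂ + a₃ = u →
        Nat.gcd (b ^ 2 + 1) n ∣ a₀ + a₁ * b + a₂ * b ^ 2 + a₃ * b ^ 3 →
        Nat.gcd (b ^ 4 - 1) n ∣ a₀ + a₁ * b + a₂ * b ^ 2 + a₃ * b ^ 3 := by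
      intro a₀ a₁ a₂ a₃ h3 h4
      refine hG.trans (Nat.Coprime.mul_dvd_of_dvd_of_dvd hcop ?_ h4)
      refine (Nat.ModEq.dvd_iff (sum_modEq hb hdb a₀ a₁ a₂ a₃) dvd_rfl).mpr ?_
      rw [h3]; exact hdu
    by_cases h2u : 2 ∣ u
    · obtain ⟨v, hv⟩ := h2u
      refine ⟨v, 0, v, 0, by omega, suff _ _ _ _ (by omega) ?_⟩
      have : v + 0 * b + v * b ^ 2 + 0 * b ^ 3 = (b ^ 2 + 1) * v := by ring
      rw [this]
      exact Dvd.dvd.mul_right heb _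
    · have hle : x + y ≤ u := by
        rcases hcond with h | h
        · exact (h2u h).elim
        · exact h
      have hparity : ¬ 2 ∣ x + y := by
        intro h
        apply hodd
        rw [← hxy]
        obtain ⟨w, hw⟩ := h
        have h3 : x ^ 2 + y ^ 2 + 2 * (x * y) = 2 * (2 * w ^ 2) := by
          have : x ^ 2 + y ^ 2 + 2 * (x * y) = (x + y) ^ 2 := by ring
          rw [this, hw]; ring
        omega
      obtain ⟨k, hk⟩ : 2 ∣ u - (x + y) := by omega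
      refine ⟨x + k, y, k, 0, by omega, suff _ _ _ _ (by omega) ?_⟩
      have : x + k + y * b + k * b ^ 2 + 0 * b ^ 3 = (x + b * y) + (b ^ 2 + 1) * k := by ring
      rw [this]
      exact Nat.dvd_add hd (Dvd.dvd.mul_right heb _)

end Pool.Agent.Lib.MP_6ae9d2_nt.Red
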