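import Pool.Agent.Lib.MP_6ae9d2_nt.Reduce

set_option autoImplicit false

namespace Pool.Agent.Lib.MP_6ae9d2_nt.Red

open Pool.Agent.Lib.MP_6ae9d2_nt

/-- The number with `r` equal digits `a`. -/
lemma ds_rep {b : ℕ} (hb : 2 ≤ b) {a : ℕ} (ha : a < b) (r : ℕ) :
    ∀ N : ℕ, N * (b - 1) = a * (b ^ r - 1) → (Nat.digits b N).sum = r * a := by
  induction r with
  | zero =>
    intro N h
    have : N = 0 := by
      simp only [pow_zero, Nat.sub_self, Nat.mul_zero] at h
      rcases Nat.mul_eq_zero.mp h with h | h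
      · exact h
      · omega
    rw [this]; simp
  | succ r ih =>
    intro N h
    have hg : b - 1 ∣ b ^ r - 1 := by simpa using Nat.sub_dvd_pow_sub_pow b 1 r
    obtain ⟨R, hR⟩ := hg
    have hbr : 1 ≤ b ^ r := Nat.one_le_pow _ _ (by omega)
    obtain ⟨b', rfl⟩ : ∃ b', b = b' + 1 := ⟨b - 1, by omega⟩
    simp only [Nat.add_sub_cancel] at h hR
    have hN : N = (b' + 1) * (a * R) + a := by
      have h1 : (b' + 1) ^ (r + 1) - 1 = b' * ((b' + 1) * R + 1) := by
        have h2 : (b' + 1) ^ r = b' * R + 1 := by omega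
        rw [pow_succ, h2]
        have : (b' * R + 1) * (b' + 1) = b' * ((b' + 1) * R + 1) + 1 := by ring
        omega
      rw [h1] at h
      have hb' : 0 < b' := by omega
      apply Nat.eq_of_mul_eq_mul_right hb'
      rw [h]; ring
    rw [hN, ds_rec hb _ _ ha, ih (a * R) (by rw [Nat.add_sub_cancel, hR]; ring)]
    ring

/-- Digit sums if the cofactor divides `b - 1`. -/
lemma out_rep {b r G c t : ℕ} (hb : 2 ≤ b) (hr : 1 ≤ r) (hct : c * t = b - 1)
    (hG : G * t = b ^ r - 1) :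
    Out b G = {u : ℕ | ∃ j k : ℕ, 1 ≤ j ∧ u = c * (r * j + t * k)} := by
  have hbr : 2 ≤ b ^ r := le_trans hb (Nat.le_self_pow (by omega) b)
  have ht0 : 0 < t := by
    rcases Nat.eq_zero_or_pos t with h | h
    · rw [h] at hct; omega
    · exact h
  have hG0 : 0 < G := by
    rcases Nat.eq_zero_or_pos G with h | h
    · rw [h] at hG; omega
    · exact h
  have hGd : G ∣ b ^ r - 1 := ⟨t, hG.symm⟩
  have hdiv : (b ^ r - 1) / G = t := by rw [← hG]; exact Nat.mul_div_cancel_left _ hG0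
  have hds : ∀ j : ℕ, j ≤ t → (Nat.digits b (j * G)).sum = r * (j * c) := by
    intro j hj
    apply ds_rep hb
    · have h1 : j * c ≤ t * c := Nat.mul_le_mul_right _ hj
      have h2 : t * c = b - 1 := by rw [mul_comm]; exact hct
      omega
    · rw [← hct, ← hG]; ring
  apply Set.Subset.antisymm
  · rintro u ⟨N, hN, hGN, rfl⟩
    obtain ⟨j, k, hj1, hj2, hjk⟩ := reduce hb hr hG0 hGd N hN hGN
    rw [hdiv] at hj2
    refine ⟨j, k, hj1, ?_⟩
    rw [hjk, hds j hj2, ← hct]; ring
  · rintro u ⟨j, k, hj, rfl⟩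
    -- reduce `j` to the range `1, …, t`
    obtain ⟨j', q, hj1, hj2, hjq⟩ : ∃ j' q : ℕ, 1 ≤ j' ∧ j' ≤ t ∧ j = j' + t * q := by
      refine ⟨(j - 1) % t + 1, (j - 1) / t, by omega, ?_, ?_⟩
      · have := Nat.mod_lt (j - 1) ht0
        omega
      · have := Nat.div_add_mod (j - 1) t
        omega
    obtain ⟨N', h1, h2, h3⟩ := steps hb hr hGd (j' * G) (Nat.mul_pos hj1 hG0)
      (Dvd.intro_left _ rfl) (k + r * q)
    refine ⟨N', h1, h2, ?_⟩
    rw [h3, hds j' hj2, hjq, ← hct]; ring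

/-- The complement of a number with `r` digits. -/
lemma ds_compl {b : ℕ} (hb : 2 ≤ b) (r : ℕ) :
    ∀ N M : ℕ, N + M = b ^ r - 1 →
      (Nat.digits b N).sum + (Nat.digits b M).sum = r * (b - 1) := by
  induction r with
  | zero =>
    intro N M h
    simp only [pow_zero, Nat.sub_self] at h
    have h1 : N = 0 := by omega
    have h2 : M = 0 := by omega
    rw [h1, h2]; simp
  | succ r ih =>
    intro N M h
    have hN := Nat.div_add_mod N b
    have hM := Nat.div_add_mod M b
    have hN0 : N % b < b := Nat.mod_lt _ (by omega)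
    have hM0 : M % b < b := Nat.mod_lt _ (by omega)
    generalize N / b = x at *
    generalize N % b = x0 at *
    generalize M / b = y at *
    generalize M % b = y0 at *
    have hbr : 1 ≤ b ^ r := Nat.one_le_pow _ _ (by omega)
    have hpow : b ^ (r + 1) = b * b ^ r := by rw [pow_succ, mul_comm]
    have hkey : x0 + y0 = b - 1 ∧ x + y = b ^ r - 1 := by
      have h1 : b * (x + y + 1) + (x0 + y0 + 1) = b * (b ^ r) + b := by
        have e1 : b * (x + y + 1) = b * x + b * y + b := by ring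
        have e2 : 1 ≤ b * b ^ r := Nat.mul_pos (by omega) (by omega)
        rw [hpow] at h
        generalize b * b ^ r = P at *
        generalize b * x = X at *
        generalize b * y = Y at *
        generalize b * (x + y + 1) = Z at *
        omega
      have h2 : b ∣ x0 + y0 + 1 := by
        have h3 : b ∣ b * (x + y + 1) + (x0 + y0 + 1) := by
          rw [h1]; exact Dvd.intro (b ^ r + 1) (by ring)
        exact (Nat.dvd_add_right (Dvd.intro _ rfl)).mp h3
      obtain ⟨z, hz⟩ := h2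
      have hz1 : z = 1 := by
        rcases Nat.lt_or_ge z 1 with h | h
        · have : z = 0 := by omega
          rw [this] at hz; omega
        · rcases Nat.lt_or_ge 1 z with h' | h'
          · have : b * 2 ≤ b * z := Nat.mul_le_mul_left _ h'
            omega
          · omega
      rw [hz1, mul_one] at hz
      refine ⟨by omega, ?_⟩
      have h4 : b * (x + y + 1) = b * (b ^ r) := by omega
      have h5 := Nat.eq_of_mul_eq_mul_left (by omega : 0 < b) h4
      omega
    obtain ⟨hk1, hk2⟩ := hkey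
    rw [← hN, ← hM, ds_rec hb _ _ hN0, ds_rec hb _ _ hM0]
    have h5 := ih x y hk2
    have h6 : (r + 1) * (b - 1) = r * (b - 1) + (b - 1) := by ring
    omega

/-- Cyclic rotation of the `r` digits. -/
lemma rot {b : ℕ} (hb : 2 ≤ b) {r s : ℕ} (hs : s ≤ r) {N : ℕ} (hN : N < b ^ r) :
    ∃ M : ℕ, M < b ^ r ∧ b ^ s * N ≡ M [MOD (b ^ r - 1)] ∧
      (Nat.digits b M).sum = (Nat.digits b N).sum := by
  have hbr : 1 ≤ b ^ r := Nat.one_le_pow _ _ (by omega)
  have hbs : 0 < b ^ s := by positivity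
  have hbrs : 0 < b ^ (r - s) := by positivity
  have hprod : b ^ s * b ^ (r - s) = b ^ r := by
    rw [← pow_add]; congr 1; omega
  have hdm := Nat.div_add_mod N (b ^ (r - s))
  have h0 : N % b ^ (r - s) < b ^ (r - s) := Nat.mod_lt _ hbrs
  have hq : N / b ^ (r - s) < b ^ s := by
    apply Nat.div_lt_of_lt_mul
    rw [mul_comm, hprod]; exact hN
  generalize N / b ^ (r - s) = q at *
  generalize N % b ^ (r - s) = t at *
  refine ⟨t * b ^ s + q, ?_, ?_, ?_⟩
  · calc t * b ^ s + q < t * b ^ s + b ^ s := by omega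
      _ = (t + 1) * b ^ s := by ring
      _ ≤ b ^ (r - s) * b ^ s := Nat.mul_le_mul_right _ (by omega)
      _ = b ^ r := by rw [mul_comm, hprod]
  · have h1 : b ^ s * N = (b ^ r - 1) * q + (t * b ^ s + q) := by
      rw [← hdm]
      have h2 : b ^ s * (b ^ (r - s) * q + t) = (b ^ s * b ^ (r - s)) * q + t * b ^ s := by ring
      rw [h2, hprod]
      have h3 : b ^ r * q = (b ^ r - 1) * q + q := by
        conv_lhs => rw [show b ^ r = (b ^ r - 1) + 1 by omega]
        ring
      rw [h3]; ring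
    rw [h1]
    have h4 : (b ^ r - 1) * q ≡ 0 [MOD (b ^ r - 1)] :=
      (Nat.modEq_zero_iff_dvd).mpr (Dvd.intro _ rfl)
    simpa using h4.add_right (t * b ^ s + q)
  · rw [ds_split hb t s q hq, ← hdm, mul_comm (b ^ (r - s)) q, ds_split hb q (r - s) t h0]
    ring

/-- Digit sums if the cofactor divides `b ^ s + 1`. -/
lemma out_neg {b r G s t : ℕ} (hb : 2 ≤ b) (hr : 1 ≤ r) (hs : 1 ≤ s) (hsr : 2 * s ∣ r)
    (ht : 2 ≤ t) (hts : t ∣ b ^ s + 1) (hG : G * t = b ^ r - 1) :
    Out b G = {u : ℕ | ∃ k : ℕ, r ≤ 2 * k ∧ u = (b - 1) * k} := by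
  have hbr : 2 ≤ b ^ r := le_trans hb (Nat.le_self_pow (by omega) b)
  have hG0 : 0 < G := by
    rcases Nat.eq_zero_or_pos G with h | h
    · rw [h] at hG; omega
    · exact h
  have hGd : G ∣ b ^ r - 1 := ⟨t, hG.symm⟩
  have hdiv : (b ^ r - 1) / G = t := by rw [← hG]; exact Nat.mul_div_cancel_left _ hG0
  obtain ⟨h, rfl⟩ : 2 ∣ r := (Dvd.intro _ rfl).trans hsr
  have hsle : s ≤ 2 * h := by
    have := Nat.le_of_dvd (by omega) hsr
    omega
  have hds : ∀ j : ℕ, 1 ≤ j → j < t → (Nat.digits b (j * G)).sum = (b - 1) * h := by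
    intro j hj1 hj2
    have hlt : j * G < b ^ (2 * h) - 1 := by
      rw [← hG, mul_comm G t]; exact Nat.mul_lt_mul_of_pos_right hj2 hG0
    obtain ⟨M, hM1, hM2, hM3⟩ := rot hb hsle (show j * G < b ^ (2 * h) by omega)
    -- `b ^ s * j G ≡ (t - j) G`
    have hcomp : j * G + (t - j) * G = b ^ (2 * h) - 1 := by
      rw [← hG, ← Nat.add_mul, show j + (t - j) = t by omega]; ring
    have hcong : b ^ s * (j * G) ≡ (t - j) * G [MOD (b ^ (2 * h) - 1)] := by
      obtain ⟨w, hw⟩ := hts
      have h1 : b ^ s * (j * G) + j * G ≡ 0 [MOD (b ^ (2 * h) - 1)] := by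
        apply (Nat.modEq_zero_iff_dvd).mpr
        rw [← hG]
        refine ⟨w * j, ?_⟩
        have : b ^ s * (j * G) + j * G = (b ^ s + 1) * (j * G) := by ring
        rw [this, hw]; ring
      have h2 : (t - j) * G + j * G ≡ 0 [MOD (b ^ (2 * h) - 1)] := by
        rw [add_comm, hcomp]; exact (Nat.modEq_zero_iff_dvd).mpr dvd_rfl
      exact Nat.ModEq.add_right_cancel' _ (h1.trans h2.symm)
    have hMc : M ≡ (t - j) * G [MOD (b ^ (2 * h) - 1)] := hM2.symm.trans hcong
    have hcpos : 0 < (t - j) * G := Nat.mul_pos (by omega) hG0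
    have hjpos : 0 < j * G := Nat.mul_pos hj1 hG0
    have hclt : (t - j) * G < b ^ (2 * h) - 1 := by omega
    have hMeq : M = (t - j) * G := by
      have h1 : M % (b ^ (2 * h) - 1) = (t - j) * G := by
        rw [hMc, Nat.mod_eq_of_lt hclt]
      rcases Nat.lt_or_ge M (b ^ (2 * h) - 1) with h2 | h2
      · rwa [Nat.mod_eq_of_lt h2] at h1
      · have h3 : M = b ^ (2 * h) - 1 := by omega
        rw [h3, Nat.mod_self] at h1
        omega
    have h5 := ds_compl hb (2 * h) _ _ hcomp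
    rw [← hMeq, hM3] at h5
    have h6 : 2 * h * (b - 1) = 2 * ((b - 1) * h) := by ring
    omega
  have hdt : (Nat.digits b (t * G)).sum = (b - 1) * (2 * h) := by
    have h1 : t * G + 0 = b ^ (2 * h) - 1 := by rw [← hG]; ring
    have h2 := ds_compl hb (2 * h) _ _ h1
    simp only [Nat.digits_zero, List.sum_nil, add_zero] at h2
    rw [h2]; ring
  apply Set.Subset.antisymm
  · rintro u ⟨N, hN, hGN, rfl⟩
    obtain ⟨j, k, hj1, hj2, hjk⟩ := reduce hb hr hG0 hGd N hN hGN
    rw [hdiv] at hj2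
    rcases Nat.lt_or_ge j t with h1 | h1
    · exact ⟨h + k, by omega, by rw [hjk, hds j hj1 h1]; ring⟩
    · have h2 : j = t := by omega
      exact ⟨2 * h + k, by omega, by rw [hjk, h2, hdt]; ring⟩
  · rintro u ⟨k, hk, rfl⟩
    obtain ⟨N', h1, h2, h3⟩ := steps hb hr hGd (1 * G) (Nat.mul_pos (by norm_num) hG0)
      (Dvd.intro_left _ rfl) (k - h)
    refine ⟨N', h1, h2, ?_⟩
    rw [h3, hds 1 le_rfl (by omega), ← Nat.mul_add]
    congr 1
    omega

end Pool.Agent.Lib.MP_6ae9d2_nt.Red
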