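import Pool.Agent.Lib.MP_6ae9d2_nt.Surj

set_option autoImplicit false

namespace Pool.Agent.Lib.MP_6ae9d2_nt.Red

open Pool.Agent.Lib.MP_6ae9d2_nt

lemma ds_small {b c : ℕ} (hb : 2 ≤ b) (hc : c < b) : (Nat.digits b c).sum = c := by
  have := ds_rec hb 0 c hc
  simpa using this

/-- Removing one power of `b` from the leading digit. -/
lemma top {b N : ℕ} (hb : 2 ≤ b) (hN : 0 < N) :
    ∃ c M : ℕ, N = b ^ c + M ∧ (Nat.digits b N).sum = (Nat.digits b M).sum + 1 := by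
  obtain ⟨c, h1, h2⟩ : ∃ c : ℕ, b ^ c ≤ N ∧ N < b ^ (c + 1) :=
    ⟨Nat.log b N, Nat.pow_log_le_self b hN.ne', Nat.lt_pow_succ_log_self (by omega) N⟩
  have hbc : 0 < b ^ c := by positivity
  obtain ⟨q, t, hr, hdm⟩ : ∃ q t : ℕ, t < b ^ c ∧ N = q * b ^ c + t :=
    ⟨N / b ^ c, N % b ^ c, Nat.mod_lt _ hbc, by
      rw [mul_comm]; exact (Nat.div_add_mod N (b ^ c)).symm⟩
  have hq1 : 1 ≤ q := by
    rcases Nat.eq_zero_or_pos q with h | h
    · rw [h] at hdm; omega
    · exact h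
  have hq2 : q < b := by
    by_contra hcon
    have h3 : b * b ^ c ≤ q * b ^ c := Nat.mul_le_mul_right _ (by omega)
    rw [pow_succ, mul_comm] at h2
    omega
  obtain ⟨q, rfl⟩ : ∃ q', q = q' + 1 := ⟨q - 1, by omega⟩
  refine ⟨c, q * b ^ c + t, ?_, ?_⟩
  · rw [hdm]; ring
  · have e1 : (Nat.digits b N).sum = (q + 1) + (Nat.digits b t).sum := by
      rw [hdm, ds_split hb (q + 1) c t hr, ds_small hb hq2]
    rw [e1, ds_split hb q c t hr, ds_small hb (show q < b by omega)]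
    omega

lemma ds_pos {b N : ℕ} (hb : 2 ≤ b) (hN : 0 < N) : 1 ≤ (Nat.digits b N).sum := by
  obtain ⟨c, M, _, h⟩ := top hb hN
  omega

lemma cop_of {b r m : ℕ} (hb : 2 ≤ b) (hr : 1 ≤ r)
    (hp : ∀ p : ℕ, p.Prime → p ∣ m → p ∣ b ^ r - 1) : Nat.Coprime m b := by
  rw [Nat.coprime_iff_gcd_eq_one]
  by_contra hne
  obtain ⟨p, hpp, hpd⟩ := Nat.exists_prime_and_dvd hne
  have h1 := hp p hpp (hpd.trans (Nat.gcd_dvd_left _ _))
  have h2 : p ∣ b ^ r := (hpd.trans (Nat.gcd_dvd_right _ _)).trans (dvd_pow_self b (by omega))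
  have h3 := Nat.dvd_sub h2 h1
  have h4 : 1 ≤ b ^ r := Nat.one_le_pow _ _ (by omega)
  rw [show b ^ r - (b ^ r - 1) = 1 by omega] at h3
  exact hpp.one_lt.ne' (Nat.dvd_one.mp h3)

/-- Lifting from the modulus `gcd (b ^ r - 1) m` to the modulus `m` with the same digit sum. -/
lemma lift {b m r : ℕ} (hb : 2 ≤ b) (hm : 1 ≤ m) (hr : 1 ≤ r)
    (hp : ∀ p : ℕ, p.Prime → p ∣ m → p ∣ b ^ r - 1) (h4 : 4 ∣ m → 4 ∣ b ^ r - 1)
    {N : ℕ} (hN : 0 < N) (hG : Nat.gcd (b ^ r - 1) m ∣ N) :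
    ∃ N' : ℕ, 0 < N' ∧ m ∣ N' ∧ (Nat.digits b N').sum = (Nat.digits b N).sum := by
  have hcop := cop_of hb hr hp
  obtain ⟨c, M, hNM, hds⟩ := top hb hN
  have hk1 : 1 ≤ Nat.totient m := Nat.totient_pos.mpr hm
  have hone : ∀ B : ℕ, b ^ (Nat.totient m * B) ≡ 1 [MOD m] := by
    intro B
    have h1 : b ^ Nat.totient m ≡ 1 [MOD m] := Nat.ModEq.pow_totient hcop.symm
    rw [pow_mul]
    simpa using h1.pow B
  set inv := b ^ ((Nat.totient m - 1) * c) with hinv
  have hbi : b ^ c * inv ≡ 1 [MOD m] := by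
    have h1 : b ^ c * inv = b ^ (Nat.totient m * c) := by
      rw [hinv, ← pow_add]
      congr 1
      conv_rhs => rw [show Nat.totient m = (Nat.totient m - 1) + 1 by omega]
      ring
    rw [h1]; exact hone c
  set G := Nat.gcd (b ^ r - 1) m with hGdef
  have hGm : G ∣ m := Nat.gcd_dvd_right _ _
  set a := (m - 1) * (M * inv) with ha
  have haG : a ≡ 1 [MOD G] := by
    have h1 : a + M * inv ≡ 0 [MOD G] := by
      have : a + M * inv = m * (M * inv) := by
        rw [ha]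
        conv_rhs => rw [show m = (m - 1) + 1 by omega]
        ring
      rw [this]
      exact (Nat.modEq_zero_iff_dvd).mpr (Dvd.dvd.mul_right hGm _)
    have h2 : b ^ c * inv + M * inv ≡ 0 [MOD G] := by
      have : b ^ c * inv + M * inv = N * inv := by rw [hNM]; ring
      rw [this]
      exact (Nat.modEq_zero_iff_dvd).mpr (Dvd.dvd.mul_right hG _)
    have h3 : a ≡ b ^ c * inv [MOD G] := Nat.ModEq.add_right_cancel' _ (h1.trans h2.symm)
    exact h3.trans (hbi.of_dvd hGm)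
  have hbr : 2 ≤ b ^ r := le_trans hb (Nat.le_self_pow (by omega) b)
  obtain ⟨e, he⟩ := surj hbr hm hp h4 a haG
  have hMlt : M < b ^ (Nat.totient m * M + (c + r * e)) := by
    calc M < b ^ M := Nat.lt_pow_self (by omega)
      _ ≤ b ^ (Nat.totient m * M) :=
        Nat.pow_le_pow_right (by omega) (Nat.le_mul_of_pos_left _ hk1)
      _ ≤ _ := Nat.pow_le_pow_right (by omega) (by omega)
  refine ⟨1 * b ^ (Nat.totient m * M + (c + r * e)) + M, by positivity, ?_, ?_⟩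
  · apply (Nat.modEq_zero_iff_dvd).mp
    have h1 : b ^ (Nat.totient m * M + (c + r * e)) ≡ b ^ c * a [MOD m] := by
      rw [pow_add, pow_add, pow_mul b r e]
      simpa using (hone M).mul (he.mul_left (b ^ c))
    have h2 : b ^ c * a ≡ (m - 1) * M [MOD m] := by
      have : b ^ c * a = ((m - 1) * M) * (b ^ c * inv) := by rw [ha]; ring
      rw [this]
      simpa using hbi.mul_left ((m - 1) * M)
    rw [one_mul]
    refine ((h1.trans h2).add_right M).trans ?_
    have : (m - 1) * M + M = m * M := by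
      conv_rhs => rw [show m = (m - 1) + 1 by omega]
      ring
    rw [this]
    exact (Nat.modEq_zero_iff_dvd).mpr (Dvd.intro _ rfl)
  · rw [ds_split hb 1 _ _ hMlt, ds_one hb, hds]; ring

/-- The reduction theorem. -/
theorem out_eq {b n r : ℕ} (hb : 2 ≤ b) (hn : 1 ≤ n) (hr : 1 ≤ r)
    (hp : ∀ p : ℕ, p.Prime → p ∣ n → p ∣ b * (b ^ r - 1))
    (h4 : b % 4 = 3 → 4 ∣ n → 2 ∣ r) : Out b n = Out b (Nat.gcd (b ^ r - 1) n) := by
  have hpos := core_pos (b := b) hn
  have hcop := core_coprime (b := b) hn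
  have hpm : ∀ p : ℕ, p.Prime → p ∣ core b n → p ∣ b ^ r - 1 := by
    intro p hpp hpm
    rcases (Nat.Prime.dvd_mul hpp).mp (hp p hpp (hpm.trans core_dvd)) with h | h
    · exfalso
      have h1 : p ∣ Nat.gcd (core b n) b := Nat.dvd_gcd hpm h
      rw [hcop] at h1
      exact hpp.one_lt.ne' (Nat.dvd_one.mp h1)
    · exact h
  have hone : 1 ≤ b ^ r := Nat.one_le_pow _ _ (by omega)
  have h4m : 4 ∣ core b n → 4 ∣ b ^ r - 1 := by
    intro h
    have hodd : ¬ 2 ∣ b := by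
      intro h2
      have h1 : 2 ∣ Nat.gcd (core b n) b := Nat.dvd_gcd (Dvd.dvd.trans (by norm_num) h) h2
      rw [hcop] at h1
      omega
    have hmod : b ^ r ≡ 1 [MOD 4] := by
      have hb4 : b % 4 = 1 ∨ b % 4 = 3 := by omega
      rcases hb4 with h1 | h1
      · have : b ≡ 1 [MOD 4] := h1
        simpa using this.pow r
      · obtain ⟨k, rfl⟩ := h4 h1 (h.trans core_dvd)
        have : b ≡ 3 [MOD 4] := h1
        have h2 : b ^ 2 ≡ 1 [MOD 4] := (this.pow 2).trans (by decide)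
        rw [pow_mul]
        simpa using h2.pow k
    exact (Nat.modEq_iff_dvd' hone).mp hmod.symm
  apply Set.Subset.antisymm
  · rintro u ⟨N, hN, hnN, hu⟩
    exact ⟨N, hN, (Nat.gcd_dvd_right _ _).trans hnN, hu⟩
  · rintro u ⟨N, hN, hnN, hu⟩
    have hG : Nat.gcd (b ^ r - 1) (core b n) ∣ N :=
      (Nat.gcd_dvd_gcd_of_dvd_right _ core_dvd).trans hnN
    obtain ⟨N', h1, h2, h3⟩ := lift hb hpos hr hpm h4m hN hG
    exact mem_of_core hb h1 h2 (h3.trans hu)

/-- Digit sums of the multiples of a divisor of `b ^ 2 - 1`. -/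
lemma char_two {b G : ℕ} (hb : 2 ≤ b) (hG : G ∣ b ^ 2 - 1) (u : ℕ) :
    u ∈ Out b G ↔ 1 ≤ u ∧ ∃ y : ℕ, y ≤ u ∧ G ∣ u + (b - 1) * y := by
  constructor
  · rintro ⟨N, hN, hGN, rfl⟩
    refine ⟨ds_pos hb hN, ?_⟩
    obtain ⟨E, O, h1, h2⟩ := even_odd hb N
    refine ⟨O, by omega, ?_⟩
    have h3 : N ≡ E + b * O [MOD G] := h2.of_dvd hG
    have h5 : G ∣ E + b * O := (Nat.ModEq.dvd_iff h3 dvd_rfl).mp hGN
    have h6 : (Nat.digits b N).sum + (b - 1) * O = E + b * O := by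
      rw [← h1]
      have : b * O = (b - 1) * O + O := by
        conv_lhs => rw [show b = (b - 1) + 1 by omega]
        ring
      omega
    rw [h6]; exact h5
  · rintro ⟨hu, y, hy, hdvd⟩
    obtain ⟨N, h1, h2⟩ := realise hb (k := 2) (by norm_num) hG (u - y) y
    have h3 : (u - y) + b * y = u + (b - 1) * y := by
      have : b * y = (b - 1) * y + y := by
        conv_lhs => rw [show b = (b - 1) + 1 by omega]
        ring
      omega
    rw [h3] at h2
    refine ⟨N, ?_, (Nat.ModEq.dvd_iff h2 dvd_rfl).mpr hdvd, by rw [h1]; omega⟩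
    rcases Nat.eq_zero_or_pos N with h | h
    · rw [h] at h1; simp at h1; omega
    · exact h

end Pool.Agent.Lib.MP_6ae9d2_nt.Red
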