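import Pool.Agent.Lib.MP_6ae9d2_nt.Basic

set_option autoImplicit false

namespace Pool.Agent.Lib.MP_6ae9d2_nt.Red

open Pool.Agent.Lib.MP_6ae9d2_nt

lemma lte_two {β f : ℕ} (hβ : 2 ≤ β) (h4 : 4 ∣ β - 1) (hf : f ≠ 0) :
    padicValNat 2 (β ^ f - 1) = padicValNat 2 (β - 1) + padicValNat 2 f := by
  have h1 : (4 : ℤ) ∣ (β : ℤ) - 1 := by
    have : ((4 : ℕ) : ℤ) ∣ ((β - 1 : ℕ) : ℤ) := by exact_mod_cast h4
    rwa [Nat.cast_sub (by omega)] at this
  have h2 : ¬ (2 : ℤ) ∣ (β : ℤ) := by omega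
  have h3 := Int.two_pow_sub_pow' (x := (β : ℤ)) (y := 1) f h1 h2
  have e1 : ((β : ℤ) ^ f - 1 ^ f) = ((β ^ f - 1 : ℕ) : ℤ) := by
    rw [Nat.cast_sub (Nat.one_le_pow _ _ (by omega))]; push_cast; ring
  have e2 : ((β : ℤ) - 1) = ((β - 1 : ℕ) : ℤ) := by
    rw [Nat.cast_sub (by omega)]; push_cast; ring
  have hlt : β ≤ β ^ f := Nat.le_self_pow hf β
  have hp : Fact (Nat.Prime 2) := ⟨Nat.prime_two⟩
  rw [e1, e2] at h3
  have c : ((2 : ℕ) : ℤ) = 2 := by norm_num
  rw [← c, Int.natCast_emultiplicity, Int.natCast_emultiplicity, Int.natCast_emultiplicity] at h3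
  rw [← padicValNat_eq_emultiplicity (by omega), ← padicValNat_eq_emultiplicity (by omega),
    ← padicValNat_eq_emultiplicity (by omega)] at h3
  exact_mod_cast h3

/-- If `β ^ f ≡ 1 (mod m)` then `m / gcd (β - 1) m` divides `f`. -/
lemma order_dvd {β m : ℕ} (hβ : 2 ≤ β) (hm : 1 ≤ m)
    (hp : ∀ p : ℕ, p.Prime → p ∣ m → p ∣ β - 1) (h4 : 4 ∣ m → 4 ∣ β - 1)
    {f : ℕ} (hf : f ≠ 0) (h : m ∣ β ^ f - 1) : m / Nat.gcd (β - 1) m ∣ f := by
  have hD : Nat.gcd (β - 1) m ∣ m := Nat.gcd_dvd_right _ _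
  have hDpos : 0 < Nat.gcd (β - 1) m := Nat.gcd_pos_of_pos_right _ hm
  have hM0 : m / Nat.gcd (β - 1) m ≠ 0 := (Nat.div_pos (Nat.le_of_dvd hm hD) hDpos).ne'
  have hlt : β ≤ β ^ f := Nat.le_self_pow hf β
  have hfac := (Nat.factorization_le_iff_dvd (by omega) (by omega : β ^ f - 1 ≠ 0)).mpr h
  rw [← Nat.factorization_le_iff_dvd hM0 hf]
  intro p
  rw [Nat.factorization_div hD, Nat.factorization_gcd (by omega) (by omega)]
  simp only [Finsupp.coe_tsub, Pi.sub_apply, Finsupp.inf_apply]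
  by_cases hpp : p.Prime
  swap
  · simp [Nat.factorization_eq_zero_of_not_prime _ hpp]
  by_cases hpm : p ∣ m
  swap
  · simp [Nat.factorization_eq_zero_of_not_dvd hpm]
  have hpβ := hp p hpp hpm
  have hle : m.factorization p ≤ (β ^ f - 1).factorization p := hfac p
  have hfact : Fact p.Prime := ⟨hpp⟩
  have hnd : ¬ p ∣ β := by
    intro hd
    have : p ∣ 1 := by
      have h1 := Nat.dvd_sub hd hpβ
      rwa [show β - (β - 1) = 1 by omega] at h1
    exact hpp.one_lt.ne' (Nat.dvd_one.mp this)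
  rcases hpp.eq_two_or_odd' with h2 | hodd
  · subst h2
    by_cases hm4 : 4 ∣ m
    · have hl := lte_two hβ (h4 hm4) hf
      rw [Nat.factorization_def _ Nat.prime_two] at hle ⊢
      rw [Nat.factorization_def _ Nat.prime_two] at hle
      rw [Nat.factorization_def _ Nat.prime_two, Nat.factorization_def _ Nat.prime_two]
      omega
    · have h5 : m.factorization 2 ≤ 1 := by
        by_contra hcon
        apply hm4
        have : 2 ^ 2 ∣ m := (Nat.Prime.pow_dvd_iff_le_factorization Nat.prime_two (by omega)).mpr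
          (by omega)
        simpa using this
      have h6 : 1 ≤ (β - 1).factorization 2 :=
        (Nat.Prime.dvd_iff_one_le_factorization Nat.prime_two (by omega)).mp hpβ
      omega
  · have hl := padicValNat.pow_sub_pow (x := β) (y := 1) hodd (by omega) (by simpa using hpβ) hnd hf
    rw [one_pow] at hl
    rw [Nat.factorization_def _ hpp, Nat.factorization_def _ hpp] at hle
    rw [Nat.factorization_def _ hpp, Nat.factorization_def _ hpp, Nat.factorization_def _ hpp]
    omega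

/-- The powers of `β` fill the residues `≡ 1 (mod gcd (β - 1) m)`. -/
lemma surj {β m : ℕ} (hβ : 2 ≤ β) (hm : 1 ≤ m)
    (hp : ∀ p : ℕ, p.Prime → p ∣ m → p ∣ β - 1) (h4 : 4 ∣ m → 4 ∣ β - 1)
    (a : ℕ) (ha : a ≡ 1 [MOD Nat.gcd (β - 1) m]) : ∃ e : ℕ, β ^ e ≡ a [MOD m] := by
  classical
  set D := Nat.gcd (β - 1) m with hDdef
  have hD : D ∣ m := Nat.gcd_dvd_right _ _
  have hDpos : 0 < D := Nat.gcd_pos_of_pos_right _ hm
  obtain ⟨M, hM⟩ := hD
  have hdiv : m / D = M := by rw [hM]; exact Nat.mul_div_cancel_left _ hDpos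
  have hcop : Nat.Coprime m β := by
    rw [Nat.coprime_iff_gcd_eq_one]
    by_contra hne
    obtain ⟨p, hpp, hpd⟩ := Nat.exists_prime_and_dvd hne
    have h1 := hp p hpp (hpd.trans (Nat.gcd_dvd_left _ _))
    have h2 : p ∣ β := hpd.trans (Nat.gcd_dvd_right _ _)
    have h3 := Nat.dvd_sub h2 h1
    rw [show β - (β - 1) = 1 by omega] at h3
    exact hpp.one_lt.ne' (Nat.dvd_one.mp h3)
  let S : Finset ℕ := (Finset.range m).filter (fun x => x ≡ 1 [MOD D])
  have hScard : S.card ≤ M := by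
    have h1 : (S.image (fun x => x / D)) ⊆ Finset.range M := by
      intro y hy
      obtain ⟨x, hx, rfl⟩ := Finset.mem_image.mp hy
      have hx1 : x < m := Finset.mem_range.mp (Finset.mem_filter.mp hx).1
      rw [Finset.mem_range]
      exact Nat.div_lt_of_lt_mul (by rw [← hM]; exact hx1)
    have h2 : S.card = (S.image (fun x => x / D)).card := by
      rw [Finset.card_image_of_injOn]
      intro x hx y hy hxy
      have hx1 : x ≡ 1 [MOD D] := (Finset.mem_filter.mp hx).2
      have hy1 : y ≡ 1 [MOD D] := (Finset.mem_filter.mp hy).2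
      have h3 : x % D = y % D := hx1.trans hy1.symm
      have h4 : x / D = y / D := hxy
      rw [← Nat.div_add_mod x D, ← Nat.div_add_mod y D, h3, h4]
    rw [h2]
    calc _ ≤ (Finset.range M).card := Finset.card_le_card h1
      _ = M := Finset.card_range M
  have hinj : Set.InjOn (fun e : ℕ => β ^ e % m) (Finset.range M : Set ℕ) := by
    have key : ∀ e e' : ℕ, e < e' → e' < M → β ^ e % m = β ^ e' % m → False := by
      intro e e' h1 h2 h3
      have h5 : β ^ e ≡ β ^ e' [MOD m] := h3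
      have h6 : m ∣ β ^ e' - β ^ e :=
        (Nat.modEq_iff_dvd' (Nat.pow_le_pow_right (by omega) h1.le)).mp h5
      have h7 : β ^ e' - β ^ e = β ^ e * (β ^ (e' - e) - 1) := by
        rw [Nat.mul_sub, ← pow_add, show e + (e' - e) = e' by omega, mul_one]
      rw [h7] at h6
      have h8 : m ∣ β ^ (e' - e) - 1 :=
        Nat.Coprime.dvd_of_dvd_mul_left (Nat.Coprime.pow_right e hcop) h6
      have h9 := order_dvd hβ hm hp h4 (f := e' - e) (by omega) h8
      rw [← hDdef, hdiv] at h9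
      have := Nat.le_of_dvd (by omega) h9
      omega
    intro e he e' he' h
    have he1 : e < M := Finset.mem_range.mp (by exact_mod_cast he)
    have he2 : e' < M := Finset.mem_range.mp (by exact_mod_cast he')
    rcases lt_trichotomy e e' with h1 | h1 | h1
    · exact (key e e' h1 he2 h).elim
    · exact h1
    · exact (key e' e h1 he1 h.symm).elim
  have himg : (Finset.range M).image (fun e => β ^ e % m) = S := by
    apply Finset.eq_of_subset_of_card_le
    · intro y hy
      obtain ⟨e, he, rfl⟩ := Finset.mem_image.mp hy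
      refine Finset.mem_filter.mpr ⟨Finset.mem_range.mpr (Nat.mod_lt _ (by omega)), ?_⟩
      have h1 : β ^ e % m ≡ β ^ e [MOD D] := (Nat.mod_modEq _ _).of_dvd ⟨M, hM⟩
      have h2 : β ≡ 1 [MOD D] :=
        ((Nat.modEq_iff_dvd' (by omega)).mpr (Nat.gcd_dvd_left _ _)).symm
      have h3 : β ^ e ≡ 1 [MOD D] := by simpa using h2.pow e
      exact h1.trans h3
    · rw [Finset.card_image_of_injOn hinj, Finset.card_range]; exact hScard
  have haS : a % m ∈ S := by
    refine Finset.mem_filter.mpr ⟨Finset.mem_range.mpr (Nat.mod_lt _ (by omega)), ?_⟩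
    have h1 : a % m ≡ a [MOD D] := (Nat.mod_modEq _ _).of_dvd ⟨M, hM⟩
    exact h1.trans ha
  rw [← himg] at haS
  obtain ⟨e, _, he⟩ := Finset.mem_image.mp haS
  exact ⟨e, he⟩

/-- Splitting the digits by the parity of their position. -/
lemma even_odd {b : ℕ} (hb : 2 ≤ b) (N : ℕ) :
    ∃ E O : ℕ, E + O = (Nat.digits b N).sum ∧ N ≡ E + b * O [MOD (b ^ 2 - 1)] := by
  induction N using Nat.strong_induction_on with
  | _ N ih =>
    rcases Nat.eq_zero_or_pos N with h | h
    · subst h; exact ⟨0, 0, by simp, rfl⟩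
    · have hdm := Nat.div_add_mod N b
      have hc : N % b < b := Nat.mod_lt _ (by omega)
      obtain ⟨E, O, h1, h2⟩ := ih (N / b) (Nat.div_lt_self h (by omega))
      refine ⟨N % b + O, E, ?_, ?_⟩
      · have : (Nat.digits b N).sum = (Nat.digits b (N / b)).sum + N % b := by
          conv_lhs => rw [← hdm]
          rw [ds_rec hb _ _ hc]
        rw [this, ← h1]; ring
      · have h3 : b * (N / b) + N % b ≡ b * (E + b * O) + N % b [MOD (b ^ 2 - 1)] :=
          (h2.mul_left b).add_right _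
        rw [hdm] at h3
        refine h3.trans ?_
        have h4 : b * (E + b * O) + N % b = (b ^ 2 - 1) * O + (N % b + O + b * E) := by
          have h5 : 1 ≤ b ^ 2 := Nat.one_le_pow _ _ (by omega)
          obtain ⟨c, hc⟩ : ∃ c, b ^ 2 = c + 1 := ⟨b ^ 2 - 1, by omega⟩
          have h6 : b * (b * O) = (b ^ 2) * O := by ring
          rw [mul_add, h6, hc]
          simp only [Nat.add_sub_cancel]; ring
        rw [h4]
        have h7 : (b ^ 2 - 1) * O ≡ 0 [MOD (b ^ 2 - 1)] :=
          (Nat.modEq_zero_iff_dvd).mpr (Dvd.intro _ rfl)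
        simpa using h7.add_right (N % b + O + b * E)

/-- Digit sums `x + y` with residue `x + b y` can be realised. -/
lemma realise {b m k : ℕ} (hb : 2 ≤ b) (hk : 1 ≤ k) (hmk : m ∣ b ^ k - 1) (x y : ℕ) :
    ∃ N : ℕ, (Nat.digits b N).sum = x + y ∧ N ≡ x + b * y [MOD m] := by
  have hone : ∀ B : ℕ, b ^ (k * B) ≡ 1 [MOD m] := by
    intro B
    have h1 : m ∣ b ^ (k * B) - 1 := by
      refine hmk.trans ?_
      rw [pow_mul]
      simpa using Nat.sub_dvd_pow_sub_pow (b ^ k) 1 B
    exact ((Nat.modEq_iff_dvd' (Nat.one_le_pow _ _ (by omega))).mpr h1).symm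
  have hlarge : ∀ N : ℕ, N < b ^ (k * N) := by
    intro N
    calc N < b ^ N := Nat.lt_pow_self (by omega)
      _ ≤ b ^ (k * N) := Nat.pow_le_pow_right (by omega) (Nat.le_mul_of_pos_left _ hk)
  induction x with
  | zero =>
    induction y with
    | zero => exact ⟨0, by simp, by simp; rfl⟩
    | succ y ih =>
      obtain ⟨N, h1, h2⟩ := ih
      have hlt : N < b ^ (k * N + 1) :=
        lt_of_lt_of_le (hlarge N) (Nat.pow_le_pow_right (by omega) (by omega))
      refine ⟨1 * b ^ (k * N + 1) + N, ?_, ?_⟩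
      · rw [ds_split hb 1 _ _ hlt, ds_one hb, h1]; ring
      · have h3 : b ^ (k * N + 1) ≡ b [MOD m] := by
          rw [pow_succ]
          simpa using (hone N).mul_right b
        calc 1 * b ^ (k * N + 1) + N = b ^ (k * N + 1) + N := by ring
          _ ≡ b + (0 + b * y) [MOD m] := h3.add h2
          _ = 0 + b * (y + 1) := by ring
  | succ x ih =>
    obtain ⟨N, h1, h2⟩ := ih
    refine ⟨1 * b ^ (k * N) + N, ?_, ?_⟩
    · rw [ds_split hb 1 _ _ (hlarge N), ds_one hb, h1]; ring
    · calc 1 * b ^ (k * N) + N = b ^ (k * N) + N := by ring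
        _ ≡ 1 + (x + b * y) [MOD m] := (hone N).add h2
        _ = x + 1 + b * y := by ring


end Pool.Agent.Lib.MP_6ae9d2_nt.Red
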