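import Pool.Agent.Lib.MP_6ae9d2_nt.CharGen
import Pool.Agent.Lib.MP_6ae9d2_nt.Eis
import Pool.Agent.Lib.MP_6ae9d2_nt.Arith

set_option autoImplicit false

namespace Pool.Agent.Lib.MP_6ae9d2_nt.Red

open Pool.Agent.Lib.MP_6ae9d2_nt

lemma pow_three_eq {b : ℕ} (hb : 2 ≤ b) : b ^ 3 - 1 = (b - 1) * (b ^ 2 + b + 1) := by
  have : b ^ 3 = (b - 1) * (b ^ 2 + b + 1) + 1 := by
    obtain ⟨c, rfl⟩ : ∃ c, b = c + 2 := ⟨b - 2, by omega⟩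
    simp only [show c + 2 - 1 = c + 1 by omega]; ring
  omega

/-- The modulus for `r = 3`. -/
lemma gcd_three {b n : ℕ} (hb : 2 ≤ b) (h3 : 3 ∣ n → 3 ∣ b) :
    Nat.gcd (b ^ 3 - 1) n ∣ Nat.gcd (b - 1) n * Nat.gcd (b ^ 2 + b + 1) n ∧
      Nat.Coprime (Nat.gcd (b - 1) n) (Nat.gcd (b ^ 2 + b + 1) n) ∧
      ¬ 3 ∣ Nat.gcd (b ^ 2 + b + 1) n := by
  have hnd : ¬ 3 ∣ Nat.gcd (b ^ 2 + b + 1) n := by
    intro h
    have h4 : 3 ∣ b := h3 (h.trans (Nat.gcd_dvd_right _ _))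
    have h5 : 3 ∣ b ^ 2 + b + 1 := h.trans (Nat.gcd_dvd_left _ _)
    have h6 : 3 ∣ b ^ 2 := Dvd.dvd.pow h4 (by norm_num)
    omega
  refine ⟨?_, ?_, hnd⟩
  · rw [pow_three_eq hb, Nat.gcd_comm, Nat.gcd_comm (b - 1) n, Nat.gcd_comm (b ^ 2 + b + 1) n]
    exact Nat.gcd_mul_right_dvd_mul_gcd n (b - 1) _
  · rw [Nat.coprime_iff_gcd_eq_one]
    by_contra hne
    obtain ⟨p, hpp, hpd⟩ := Nat.exists_prime_and_dvd hne
    have h4 : p ∣ b - 1 := (hpd.trans (Nat.gcd_dvd_left _ _)).trans (Nat.gcd_dvd_left _ _)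
    have h5 : p ∣ Nat.gcd (b ^ 2 + b + 1) n := hpd.trans (Nat.gcd_dvd_right _ _)
    have h6 : p ∣ b ^ 2 + b + 1 := h5.trans (Nat.gcd_dvd_left _ _)
    have h8 : b ^ 2 + b + 1 = (b - 1) * (b + 2) + 3 := by
      obtain ⟨c, rfl⟩ : ∃ c, b = c + 1 := ⟨b - 1, by omega⟩
      simp only [Nat.add_sub_cancel]; ring
    rw [h8] at h6
    have h9 : p ∣ 3 := (Nat.dvd_add_right (Dvd.dvd.mul_right h4 _)).mp h6
    have h10 := (Nat.prime_dvd_prime_iff_eq hpp Nat.prime_three).mp h9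
    rw [h10] at h5
    exact hnd h5

lemma sum_modEq3 {b d : ℕ} (hb : 2 ≤ b) (hd : d ∣ b - 1) (a₀ a₁ a₂ : ℕ) :
    a₀ + a₁ * b + a₂ * b ^ 2 ≡ a₀ + a₁ + a₂ [MOD d] := by
  have h1 : b ≡ 1 [MOD d] := ((Nat.modEq_iff_dvd' (by omega)).mpr hd).symm
  have h2 : b ^ 2 ≡ 1 [MOD d] := by simpa using h1.pow 2
  have e1 : a₁ * b ≡ a₁ [MOD d] := by simpa using h1.mul_left a₁
  have e2 : a₂ * b ^ 2 ≡ a₂ [MOD d] := by simpa using h2.mul_left a₂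
  exact (e1.add_left a₀).add e2

theorem out_three {b n : ℕ} (hb : 2 ≤ b) (hn : 1 ≤ n)
    (hp : ∀ p : ℕ, p.Prime → p ∣ n → p ∣ b * (b ^ 3 - 1)) (h3 : 3 ∣ n → 3 ∣ b)
    (h4 : b % 4 = 3 → ¬ 4 ∣ n) :
    (∃ x y : ℕ, x ^ 2 + x * y + y ^ 2 = Nat.gcd (b ^ 2 + b + 1) n ∧
        Nat.gcd (b ^ 2 + b + 1) n ∣ x + (b + 1) * y) ∧
      ∀ x y : ℕ, x ^ 2 + x * y + y ^ 2 = Nat.gcd (b ^ 2 + b + 1) n →
        Nat.gcd (b ^ 2 + b + 1) n ∣ x + (b + 1) * y →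
          Out b n = {u : ℕ | 1 ≤ u ∧ Nat.gcd (b - 1) n ∣ u ∧
            (3 ∣ u ∨ (u ≡ x + 2 * y [MOD 3] ∧ x + 2 * y ≤ u) ∨
              (u ≡ 2 * x + y [MOD 3] ∧ 2 * x + y ≤ u))} := by
  obtain ⟨hG, hcop, hnd⟩ := gcd_three hb h3
  have he0 : 1 ≤ Nat.gcd (b ^ 2 + b + 1) n := Nat.gcd_pos_of_pos_right _ hn
  have heb : Nat.gcd (b ^ 2 + b + 1) n ∣ b ^ 2 + b + 1 := Nat.gcd_dvd_left _ _
  have hdb : Nat.gcd (b - 1) n ∣ b - 1 := Nat.gcd_dvd_left _ _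
  have hdG : Nat.gcd (b - 1) n ∣ Nat.gcd (b ^ 3 - 1) n :=
    Nat.gcd_dvd_gcd_of_dvd_left _ (by rw [pow_three_eq hb]; exact Dvd.intro _ rfl)
  have heG : Nat.gcd (b ^ 2 + b + 1) n ∣ Nat.gcd (b ^ 3 - 1) n :=
    Nat.gcd_dvd_gcd_of_dvd_left _ (by rw [pow_three_eq hb]; exact Dvd.intro_left _ rfl)
  refine ⟨three_exists he0 hnd heb, fun x y hxy hd => ?_⟩
  rw [out_eq hb hn (r := 3) (by norm_num) hp (fun h5 h6 => (h4 h5 h6).elim)]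
  ext u
  rw [char_three hb (Nat.gcd_dvd_left _ _)]
  simp only [Set.mem_setOf_eq]
  refine and_congr_right fun hu => ?_
  have hezb : ((Nat.gcd (b ^ 2 + b + 1) n : ℕ) : ℤ) ∣ (b : ℤ) ^ 2 + b + 1 := by
    exact_mod_cast heb
  constructor
  · rintro ⟨a₀, a₁, a₂, hsum, hdvd⟩
    refine ⟨?_, ?_⟩
    · have h5 := hdG.trans hdvd
      rw [← hsum]
      exact (Nat.ModEq.dvd_iff (sum_modEq3 hb hdb a₀ a₁ a₂) dvd_rfl).mp h5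
    · by_cases h3u : 3 ∣ u
      · exact Or.inl h3u
      right
      have h5 : ((Nat.gcd (b ^ 2 + b + 1) n : ℕ) : ℤ) ∣
          ((a₀ + a₁ * b + a₂ * b ^ 2 : ℕ) : ℤ) := by
        exact_mod_cast heG.trans hdvd
      have h6 : ((Nat.gcd (b ^ 2 + b + 1) n : ℕ) : ℤ) ∣
          ((a₀ : ℤ) - a₁) + ((b : ℤ) + 1) * ((a₁ : ℤ) - a₂) := by
        have h7 : ((a₀ : ℤ) - a₁) + ((b : ℤ) + 1) * ((a₁ : ℤ) - a₂) =
            ((a₀ + a₁ * b + a₂ * b ^ 2 : ℕ) : ℤ) - ((b : ℤ) ^ 2 + b + 1) * a₂ := by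
          push_cast; ring
        rw [h7]
        exact dvd_sub h5 (Dvd.dvd.mul_right hezb _)
      exact three_min he0 hnd heb hxy hd hsum h3u h6
  · rintro ⟨hdu, hcond⟩
    have suff : ∀ a₀ a₁ a₂ : ℕ, a₀ + a₁ + a₂ = u →
        Nat.gcd (b ^ 2 + b + 1) n ∣ a₀ + a₁ * b + a₂ * b ^ 2 →
        Nat.gcd (b ^ 3 - 1) n ∣ a₀ + a₁ * b + a₂ * b ^ 2 := by
      intro a₀ a₁ a₂ h5 h6
      refine hG.trans (Nat.Coprime.mul_dvd_of_dvd_of_dvd hcop ?_ h6)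
      refine (Nat.ModEq.dvd_iff (sum_modEq3 hb hdb a₀ a₁ a₂) dvd_rfl).mpr ?_
      rw [h5]; exact hdu
    rcases hcond with h5 | ⟨h5, h6⟩ | ⟨h5, h6⟩
    · obtain ⟨v, hv⟩ := h5
      refine ⟨v, v, v, by omega, suff _ _ _ (by omega) ?_⟩
      have : v + v * b + v * b ^ 2 = (b ^ 2 + b + 1) * v := by ring
      rw [this]
      exact Dvd.dvd.mul_right heb _
    · obtain ⟨k, hk⟩ := (Nat.modEq_iff_dvd' h6).mp h5.symm
      refine ⟨x + y + k, y + k, k, by omega, suff _ _ _ (by omega) ?_⟩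
      have : x + y + k + (y + k) * b + k * b ^ 2 =
          (x + (b + 1) * y) + (b ^ 2 + b + 1) * k := by ring
      rw [this]
      exact Nat.dvd_add hd (Dvd.dvd.mul_right heb _)
    · obtain ⟨k, hk⟩ := (Nat.modEq_iff_dvd' h6).mp h5.symm
      refine ⟨k, x + k, x + y + k, by omega, suff _ _ _ (by omega) ?_⟩
      have h7 : (x + (b + 1) * y) + (k + (x + k) * b + (x + y + k) * b ^ 2) =
          (b ^ 2 + b + 1) * (x + y + k) := by ring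
      have h8 : Nat.gcd (b ^ 2 + b + 1) n ∣
          (x + (b + 1) * y) + (k + (x + k) * b + (x + y + k) * b ^ 2) := by
        rw [h7]; exact Dvd.dvd.mul_right heb _
      exact (Nat.dvd_add_right hd).mp h8

end Pool.Agent.Lib.MP_6ae9d2_nt.Red
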